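import Mathlib
import Pool.Agent.R528.RM.Basic

set_option autoImplicit false
set_option linter.unusedSectionVars false

/-! # Random Collatz maps: the probability of a path -/

open MeasureTheory Filter Set
open scoped ENNReal Topology

namespace Pool.Agent.N909.CM

open Pool.Agent.R528.RM

/-- one step: up for `true`, down for `false` -/
def stp (b : Bool) (n : ℕ) : ℕ := if b then (3 * n + 1) / 2 else n / 2

variable {Ω : Type} {m0 : MeasurableSpace Ω} {μ : Measure Ω} [IsProbabilityMeasure μ]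
  {ℱ : Filtration ℕ m0} {B : ℕ → Set Ω}

open Classical in
/-- the random map -/
noncomputable def T (B : ℕ → Set Ω) (ω : Ω) (n : ℕ) : ℕ := if ω ∈ B n then (3 * n + 1) / 2 else n / 2

/-- prescribed decisions -/
def Ev (B : ℕ → Set Ω) (G : Finset (ℕ × Bool)) : Set Ω := {ω | ∀ p ∈ G, (ω ∈ B p.1 ↔ p.2 = true)}

/-- a violation just before one of the positions -/
def Vi (V : ℕ → Set Ω) (G : Finset (ℕ × Bool)) : Set Ω := {ω | ∃ p ∈ G, ω ∈ V (p.1 - 1)}

lemma Ev_insert (a : ℕ × Bool) (s : Finset (ℕ × Bool)) :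
    Ev B (insert a s) = {ω | ω ∈ B a.1 ↔ a.2 = true} ∩ Ev B s := by
  ext ω
  simp only [Ev, mem_ofPred_eq, Finset.mem_insert, forall_eq_or_imp, mem_inter_iff]

lemma Vi_insert (V : ℕ → Set Ω) (a : ℕ × Bool) (s : Finset (ℕ × Bool)) :
    Vi V (insert a s) = V (a.1 - 1) ∪ Vi V s := by
  ext ω
  simp only [Vi, mem_ofPred_eq, Finset.mem_insert, mem_union]
  constructor
  · rintro ⟨p, h1 | h1, h2⟩
    · rw [h1] at h2; exact Or.inl h2
    · exact Or.inr ⟨p, h1, h2⟩
  · rintro (h | ⟨p, h1, h2⟩)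
    · exact ⟨a, Or.inl rfl, h⟩
    · exact ⟨p, Or.inr h1, h2⟩

lemma Ev_meas (hB : ∀ n, MeasurableSet[ℱ n] (B n)) (N : ℕ) (s : Finset (ℕ × Bool)) (hs : ∀ p ∈ s, p.1 ≤ N) :
    MeasurableSet[ℱ N] (Ev B s) := by
  have : Ev B s = ⋂ p ∈ s, {ω | ω ∈ B p.1 ↔ p.2 = true} := by
    ext ω
    simp only [Ev, mem_ofPred_eq, mem_iInter]
  rw [this]
  refine Finset.measurableSet_biInter s fun p hp => ?_
  have h1 : MeasurableSet[ℱ N] (B p.1) := ℱ.mono (hs p hp) _ (hB p.1)
  rcases hb : p.2 with _ | _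
  · have : {ω | ω ∈ B p.1 ↔ false = true} = (B p.1)ᶜ := by
      ext ω; simp
    rw [this]
    exact @MeasurableSet.compl _ _ (ℱ N) h1
  · have : {ω | ω ∈ B p.1 ↔ true = true} = B p.1 := by
      ext ω; simp
    rw [this]
    exact h1

lemma Vi_meas {V : ℕ → Set Ω} (hV : ∀ n, MeasurableSet[ℱ n] (V n)) (N : ℕ) (s : Finset (ℕ × Bool))
    (hs : ∀ p ∈ s, p.1 ≤ N) : MeasurableSet[ℱ N] (Vi V s) := by
  have : Vi V s = ⋃ p ∈ s, V (p.1 - 1) := by
    ext ω
    simp only [Vi, mem_ofPred_eq, mem_iUnion, exists_prop]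
  rw [this]
  refine Finset.measurableSet_biUnion s fun p hp => ?_
  exact ℱ.mono (by have := hs p hp; omega) _ (hV _)

/-- the probability of prescribed decisions at different positions, without violation -/
theorem ev_le (hB : ∀ n, MeasurableSet[ℱ n] (B n)) {V : ℕ → Set Ω} (hV : ∀ n, MeasurableSet[ℱ n] (V n)) {q : ℝ}
    (hq : 0 ≤ q) (hd : ∀ n ω, ω ∉ V n → 1 - q ≤ dens μ ℱ B n ω ∧ dens μ ℱ B n ω ≤ q) (G : Finset (ℕ × Bool)) :
    Set.InjOn Prod.fst (G : Set (ℕ × Bool)) → (∀ p ∈ G, 1 ≤ p.1) → μ.real (Ev B G \ Vi V G) ≤ q ^ G.card := by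
  classical
  refine Finset.induction_on_max_value Prod.fst G ?_ ?_
  · intro _ _
    rw [Finset.card_empty, pow_zero]
    exact measureReal_le_one
  · intro a s ha hmax ih hinj hpos
    have hlt : ∀ p ∈ s, p.1 < a.1 := by
      intro p hp
      refine lt_of_le_of_ne (hmax p hp) fun h => ?_
      have := hinj (Finset.mem_coe.2 (Finset.mem_insert_of_mem hp)) (Finset.mem_coe.2 (Finset.mem_insert_self a s)) h
      exact ha (this ▸ hp)
    have ha1 : 1 ≤ a.1 := hpos a (Finset.mem_insert_self _ _)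
    have hih := ih (hinj.mono (by rw [Finset.coe_insert]; exact Set.subset_insert _ _))
      (fun p hp => hpos p (Finset.mem_insert_of_mem hp))
    obtain ⟨N, hN⟩ : ∃ N, a.1 = N + 1 := ⟨a.1 - 1, by omega⟩
    have hsN : ∀ p ∈ s, p.1 ≤ N := fun p hp => by have := hlt p hp; omega
    set C : Set Ω := (Ev B s \ Vi V s) \ V N with hC
    have hCm : MeasurableSet[ℱ N] C :=
      @MeasurableSet.diff _ (ℱ N) _ _ (@MeasurableSet.diff _ (ℱ N) _ _ (Ev_meas hB N s hsN) (Vi_meas hV N s hsN)) (hV N)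
    have hCle : μ.real C ≤ q ^ s.card := (measureReal_mono diff_subset).trans hih
    have hup := upper_meas (μ := μ) hB N hCm (u := q) (fun ω hω => (hd N ω hω.2).2)
    have hlo := lower_meas (μ := μ) hB N hCm (l := 1 - q) (fun ω hω => (hd N ω hω.2).1)
    have hBm : MeasurableSet (B (N + 1)) := ℱ.le _ _ (hB _)
    have hsplit := measureReal_inter_add_sdiff (μ := μ) (s := C) hBm
    rw [Finset.card_insert_of_notMem ha, pow_succ]
    have key : μ.real (Ev B (insert a s) \ Vi V (insert a s)) ≤ q * μ.real C := by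
      rw [Ev_insert, Vi_insert]
      rcases hb : a.2 with _ | _
      · have hsub : ({ω | ω ∈ B a.1 ↔ false = true} ∩ Ev B s) \ (V (a.1 - 1) ∪ Vi V s) ⊆ C \ B (N + 1) := by
          rintro ω ⟨⟨h1, h2⟩, h3⟩
          rw [hN] at h1 h3
          simp only [mem_ofPred_eq, Bool.false_eq_true, iff_false] at h1
          simp only [Nat.add_sub_cancel, mem_union, not_or] at h3
          exact ⟨⟨⟨h2, h3.2⟩, h3.1⟩, h1⟩
        refine (measureReal_mono hsub).trans ?_
        linarith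
      · have hsub : ({ω | ω ∈ B a.1 ↔ true = true} ∩ Ev B s) \ (V (a.1 - 1) ∪ Vi V s) ⊆ C ∩ B (N + 1) := by
          rintro ω ⟨⟨h1, h2⟩, h3⟩
          rw [hN] at h1 h3
          simp only [mem_ofPred_eq, iff_true] at h1
          simp only [Nat.add_sub_cancel, mem_union, not_or] at h3
          exact ⟨⟨⟨h2, h3.2⟩, h3.1⟩, h1⟩
        exact (measureReal_mono hsub).trans hup
    calc _ ≤ q * μ.real C := key
      _ ≤ q * q ^ s.card := mul_le_mul_of_nonneg_left hCle hq
      _ = q ^ s.card * q := mul_comm _ _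

/-! ### Paths -/

/-- the trajectory of `n` stays above `K` and meets no position twice and no violation for `k` steps,
and is then at least `Y` -/
def Good (B V : ℕ → Set Ω) (K : ℕ) (Y : ℝ) (ω : Ω) : ℕ → Finset ℕ → ℕ → Prop
  | 0, _, n => Y ≤ n
  | k + 1, F, n => K < n ∧ n ∉ F ∧ ω ∉ V (n - 1) ∧ Good B V K Y ω k (insert n F) (T B ω n)

/-- the growth factor -/
noncomputable def Mf (θ : ℝ) (K : ℕ) : ℝ := (3 / 2 * (1 + 1 / (K : ℝ))) ^ θ + (1 / 2 : ℝ) ^ θ

lemma stp_bound {θ : ℝ} (hθ : 0 < θ) {K n : ℕ} (hK : 1 ≤ K) (hn : K < n) :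
    ((stp true n : ℕ) : ℝ) ^ θ + ((stp false n : ℕ) : ℝ) ^ θ ≤ Mf θ K * (n : ℝ) ^ θ := by
  have hK0 : (1 : ℝ) ≤ K := by exact_mod_cast hK
  have hn0 : (K : ℝ) < n := by exact_mod_cast hn
  have hn1 : (0 : ℝ) < n := by linarith
  have h1 : ((stp true n : ℕ) : ℝ) ≤ 3 / 2 * (1 + 1 / (K : ℝ)) * n := by
    have h2 : (((3 * n + 1) / 2 : ℕ) : ℝ) ≤ (3 * n + 1) / 2 := by
      have := Nat.cast_div_le (α := ℝ) (m := 3 * n + 1) (n := 2)
      push_cast at this
      exact this
    have h3 : ((stp true n : ℕ) : ℝ) = (((3 * n + 1) / 2 : ℕ) : ℝ) := by simp [stp]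
    rw [h3]
    refine h2.trans ?_
    have h4 : 1 ≤ 1 / (K : ℝ) * n := by
      rw [one_div, ← div_eq_inv_mul, le_div_iff₀ (by linarith)]
      linarith
    nlinarith
  have h2 : ((stp false n : ℕ) : ℝ) ≤ 1 / 2 * n := by
    have h3 : ((stp false n : ℕ) : ℝ) = ((n / 2 : ℕ) : ℝ) := by simp [stp]
    rw [h3]
    have := Nat.cast_div_le (α := ℝ) (m := n) (n := 2)
    push_cast at this
    linarith
  unfold Mf
  rw [add_mul]
  have e1 : (3 / 2 * (1 + 1 / (K : ℝ))) ^ θ * (n : ℝ) ^ θ = (3 / 2 * (1 + 1 / (K : ℝ)) * n) ^ θ :=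
    (Real.mul_rpow (by positivity) hn1.le).symm
  have e2 : (1 / 2 : ℝ) ^ θ * (n : ℝ) ^ θ = (1 / 2 * (n : ℝ)) ^ θ := (Real.mul_rpow (by norm_num) hn1.le).symm
  rw [e1, e2]
  exact add_le_add (Real.rpow_le_rpow (Nat.cast_nonneg _) h1 hθ.le) (Real.rpow_le_rpow (Nat.cast_nonneg _) h2 hθ.le)

/-- **the probability of a long stay or of a large value** -/
theorem good_le (hB : ∀ n, MeasurableSet[ℱ n] (B n)) {V : ℕ → Set Ω} (hV : ∀ n, MeasurableSet[ℱ n] (V n)) {q : ℝ}
    (hq : 0 ≤ q) (hd : ∀ n ω, ω ∉ V n → 1 - q ≤ dens μ ℱ B n ω ∧ dens μ ℱ B n ω ≤ q) {θ : ℝ} (hθ : 0 < θ) {K : ℕ}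
    (hK : 1 ≤ K) {Y : ℝ} (hY : 0 < Y) (k : ℕ) : ∀ (G : Finset (ℕ × Bool)) (n : ℕ),
    Set.InjOn Prod.fst (G : Set (ℕ × Bool)) → (∀ p ∈ G, 1 ≤ p.1) →
    μ.real {ω | ω ∈ Ev B G \ Vi V G ∧ Good B V K Y ω k (G.image Prod.fst) n} ≤
      q ^ G.card * (q * Mf θ K) ^ k * ((n : ℝ) ^ θ / Y ^ θ) := by
  classical
  have hM0 : 0 ≤ Mf θ K := by
    unfold Mf
    positivity
  induction k with
  | zero =>
    intro G n hinj hpos
    rw [pow_zero, mul_one]
    by_cases h : Y ≤ n
    · have h1 : 1 ≤ (n : ℝ) ^ θ / Y ^ θ := by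
        rw [one_le_div (by positivity)]
        exact Real.rpow_le_rpow hY.le h hθ.le
      have h2 : μ.real {ω | ω ∈ Ev B G \ Vi V G ∧ Good B V K Y ω 0 (G.image Prod.fst) n} ≤ q ^ G.card :=
        (measureReal_mono fun ω hω => hω.1).trans (ev_le hB hV hq hd G hinj hpos)
      calc _ ≤ q ^ G.card := h2
        _ = q ^ G.card * 1 := (mul_one _).symm
        _ ≤ _ := mul_le_mul_of_nonneg_left h1 (by positivity)
    · have : {ω | ω ∈ Ev B G \ Vi V G ∧ Good B V K Y ω 0 (G.image Prod.fst) n} = ∅ := by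
        ext ω
        simp only [mem_ofPred_eq, mem_empty_iff_false, iff_false]
        exact fun hω => h hω.2
      rw [this, measureReal_empty]
      positivity
  | succ k ih =>
    intro G n hinj hpos
    by_cases h : K < n ∧ n ∉ G.image Prod.fst
    · obtain ⟨hn, hnG⟩ := h
      have hins : ∀ b : Bool, Set.InjOn Prod.fst ((insert (n, b) G : Finset (ℕ × Bool)) : Set (ℕ × Bool)) ∧
          (∀ p ∈ insert (n, b) G, 1 ≤ p.1) ∧ (insert (n, b) G).card = G.card + 1 ∧
          (insert (n, b) G).image Prod.fst = insert n (G.image Prod.fst) := by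
        intro b
        have hnb : (n, b) ∉ G := fun h => hnG (Finset.mem_image_of_mem Prod.fst h)
        refine ⟨?_, ?_, Finset.card_insert_of_notMem hnb, by rw [Finset.image_insert]⟩
        · rw [Finset.coe_insert, Set.injOn_insert (by simpa using hnb)]
          refine ⟨hinj, ?_⟩
          rintro ⟨p, hp, hp2⟩
          exact hnG (Finset.mem_image.2 ⟨p, by simpa using hp, hp2⟩)
        · intro p hp
          rw [Finset.mem_insert] at hp
          rcases hp with h | h
          · rw [h]; show 1 ≤ n; omega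
          · exact hpos p h
      have hsub : {ω | ω ∈ Ev B G \ Vi V G ∧ Good B V K Y ω (k + 1) (G.image Prod.fst) n} ⊆
          {ω | ω ∈ Ev B (insert (n, true) G) \ Vi V (insert (n, true) G) ∧
            Good B V K Y ω k ((insert (n, true) G).image Prod.fst) (stp true n)} ∪
          {ω | ω ∈ Ev B (insert (n, false) G) \ Vi V (insert (n, false) G) ∧
            Good B V K Y ω k ((insert (n, false) G).image Prod.fst) (stp false n)} := by
        rintro ω ⟨⟨h1, h2⟩, h3, h4, h5, h6⟩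
        by_cases hb : ω ∈ B n
        · left
          refine ⟨⟨?_, ?_⟩, ?_⟩
          · rw [Ev_insert]
            exact ⟨by simp [hb], h1⟩
          · rw [Vi_insert]
            rintro (h | h)
            · exact h5 h
            · exact h2 h
          · rw [(hins true).2.2.2]
            have : T B ω n = stp true n := by simp [T, stp, hb]
            rwa [this] at h6
        · right
          refine ⟨⟨?_, ?_⟩, ?_⟩
          · rw [Ev_insert]
            exact ⟨by simp [hb], h1⟩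
          · rw [Vi_insert]
            rintro (h | h)
            · exact h5 h
            · exact h2 h
          · rw [(hins false).2.2.2]
            have : T B ω n = stp false n := by simp [T, stp, hb]
            rwa [this] at h6
      have h1 := ih (insert (n, true) G) (stp true n) (hins true).1 (hins true).2.1
      have h2 := ih (insert (n, false) G) (stp false n) (hins false).1 (hins false).2.1
      rw [(hins true).2.2.1] at h1
      rw [(hins false).2.2.1] at h2
      have h3 := stp_bound hθ hK hn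
      refine (measureReal_mono hsub).trans ((measureReal_union_le _ _).trans ((add_le_add h1 h2).trans ?_))
      rw [← mul_add, ← add_div]
      calc q ^ (G.card + 1) * (q * Mf θ K) ^ k * ((((stp true n : ℕ) : ℝ) ^ θ + ((stp false n : ℕ) : ℝ) ^ θ) / Y ^ θ)
          ≤ q ^ (G.card + 1) * (q * Mf θ K) ^ k * ((Mf θ K * (n : ℝ) ^ θ) / Y ^ θ) := by
            apply mul_le_mul_of_nonneg_left _ (by positivity)
            exact div_le_div_of_nonneg_right h3 (by positivity)
        _ = _ := by ring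
    · have : {ω | ω ∈ Ev B G \ Vi V G ∧ Good B V K Y ω (k + 1) (G.image Prod.fst) n} = ∅ := by
        ext ω
        simp only [mem_ofPred_eq, mem_empty_iff_false, iff_false]
        rintro ⟨_, h1, h2, _⟩
        exact h ⟨h1, h2⟩
      rw [this, measureReal_empty]
      positivity

/-- the same from the start -/
theorem good_start (hB : ∀ n, MeasurableSet[ℱ n] (B n)) {V : ℕ → Set Ω} (hV : ∀ n, MeasurableSet[ℱ n] (V n)) {q : ℝ}
    (hq : 0 ≤ q) (hd : ∀ n ω, ω ∉ V n → 1 - q ≤ dens μ ℱ B n ω ∧ dens μ ℱ B n ω ≤ q) {θ : ℝ} (hθ : 0 < θ) {K : ℕ}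
    (hK : 1 ≤ K) {Y : ℝ} (hY : 0 < Y) (k n : ℕ) :
    μ.real {ω | Good B V K Y ω k ∅ n} ≤ (q * Mf θ K) ^ k * ((n : ℝ) ^ θ / Y ^ θ) := by
  classical
  have h1 := good_le (μ := μ) hB hV hq hd hθ hK hY k ∅ n (by simp) (by simp)
  rw [Finset.card_empty, pow_zero, one_mul, Finset.image_empty] at h1
  refine le_trans (le_of_eq ?_) h1
  congr 1
  ext ω
  simp [Ev, Vi]

end Pool.Agent.N909.CM
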