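import Mathlib
import Pool.Agent.N909.CM.Env
import Pool.Agent.R528.RM.Gold

set_option autoImplicit false
set_option linter.unusedSectionVars false

/-! # Random Collatz maps: all trajectories -/

open MeasureTheory Filter Set
open scoped ENNReal Topology

namespace Pool.Agent.N909.CM

open Pool.Agent.R528.RM

/-- the mean of the `θ`-th power of one factor -/
noncomputable def mm (θ : ℝ) : ℝ := ((3 / 2 : ℝ) ^ θ + (1 / 2 : ℝ) ^ θ) / 2

lemma mm_pos (θ : ℝ) : 0 < mm θ := by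
  unfold mm
  positivity

lemma mm_lt {θ : ℝ} (h0 : 0 < θ) (h1 : θ < 1) : mm θ < 1 := by
  have hc := Real.strictConcaveOn_rpow h0 h1
  have h := hc.2 (Set.mem_Ici.2 (show (0 : ℝ) ≤ 3 / 2 by norm_num)) (Set.mem_Ici.2 (show (0 : ℝ) ≤ 1 / 2 by norm_num))
    (by norm_num) (show (0 : ℝ) < 1 / 2 by norm_num) (show (0 : ℝ) < 1 / 2 by norm_num) (by norm_num)
  simp only [smul_eq_mul] at h
  have e : (1 / 2 * (3 / 2) + 1 / 2 * (1 / 2) : ℝ) = 1 := by norm_num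
  rw [e, Real.one_rpow] at h
  unfold mm
  linarith

lemma param {θ r : ℝ} (hθ : 0 < θ) (hr : mm θ < r) : ∃ δ : ℝ, 0 < δ ∧ ∃ K₀ : ℕ, ∀ K, K₀ ≤ K → 1 ≤ K ∧
    (1 / 2 + δ) * Mf θ K ≤ r := by
  set η := r - mm θ with hη
  have hη0 : 0 < η := by linarith
  have hm := mm_pos θ
  have h1 : Tendsto (fun K : ℕ => Mf θ K) atTop (𝓝 (2 * mm θ)) := by
    have h2 : Tendsto (fun K : ℕ => (1 : ℝ) / K) atTop (𝓝 0) := tendsto_one_div_atTop_nhds_zero_nat
    have h3 : Tendsto (fun K : ℕ => 3 / 2 * (1 + 1 / (K : ℝ))) atTop (𝓝 (3 / 2 * (1 + 0))) :=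
      (h2.const_add 1).const_mul _
    have h4 := h3.rpow_const (p := θ) (Or.inl (by norm_num))
    have h5 := h4.add_const ((1 / 2 : ℝ) ^ θ)
    have e : (3 / 2 * (1 + 0) : ℝ) ^ θ + (1 / 2 : ℝ) ^ θ = 2 * mm θ := by
      unfold mm
      rw [add_zero, mul_one]
      ring
    rwa [e] at h5
  obtain ⟨K₀, hK₀⟩ := eventually_atTop.1 (h1.eventually (ge_mem_nhds (show 2 * mm θ < 2 * mm θ + η by linarith)))
  refine ⟨η / (2 * (2 * mm θ + η)), by positivity, max K₀ 1, fun K hK => ⟨(le_max_right _ _).trans hK, ?_⟩⟩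
  have h2 := hK₀ K ((le_max_left _ _).trans hK)
  calc (1 / 2 + η / (2 * (2 * mm θ + η))) * Mf θ K ≤ (1 / 2 + η / (2 * (2 * mm θ + η))) * (2 * mm θ + η) :=
        mul_le_mul_of_nonneg_left h2 (by positivity)
    _ = r := by
      have : 2 * mm θ + η ≠ 0 := by positivity
      field_simp
      rw [hη]
      ring

variable {Ω : Type} {m0 : MeasurableSpace Ω} {μ : Measure Ω} [IsProbabilityMeasure μ]
  {ℱ : Filtration ℕ m0} {B : ℕ → Set Ω}

/-- the violation event -/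
def VC (μ : Measure Ω) (ℱ : Filtration ℕ m0) (B : ℕ → Set Ω) (δ : ℝ) (n : ℕ) : Set Ω :=
  {ω | ¬ |dens μ ℱ B n ω - 1 / 2| ≤ δ}

lemma VC_meas (δ : ℝ) (n : ℕ) : MeasurableSet[ℱ n] (VC μ ℱ B δ n) := by
  have h2 : MeasurableSet {x : ℝ | ¬ |x - 1 / 2| ≤ δ} := by
    have : Measurable (fun x : ℝ => |x - 1 / 2|) := by fun_prop
    exact (this measurableSet_Iic).compl
  exact (dens_meas n).measurable h2

lemma VC_bd {δ : ℝ} (n : ℕ) (ω : Ω) (h : ω ∉ VC μ ℱ B δ n) :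
    1 - (1 / 2 + δ) ≤ dens μ ℱ B n ω ∧ dens μ ℱ B n ω ≤ 1 / 2 + δ := by
  simp only [VC, mem_ofPred_eq, not_not] at h
  have := abs_le.1 h
  constructor <;> linarith

lemma no_VC {ω : Ω} (h : Tendsto (fun n : ℕ => dens μ ℱ B n ω) atTop (𝓝 (1 / 2))) {δ : ℝ} (hδ : 0 < δ) :
    ∃ n₀ : ℕ, ∀ n, n₀ ≤ n → ω ∉ VC μ ℱ B δ n := by
  rw [← eventually_atTop]
  have h1 := h.eventually (Metric.ball_mem_nhds (1 / 2) hδ)
  filter_upwards [h1] with n hn
  have hn : dist (dens μ ℱ B n ω) (1 / 2) < δ := hn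
  rw [Real.dist_eq] at hn
  simp only [VC, mem_ofPred_eq, not_not]
  exact hn.le

/-- long stays do not occur -/
lemma long (hB : ∀ n, MeasurableSet[ℱ n] (B n)) {θ r γ δ : ℝ} (hθ : 0 < θ) (hr0 : 0 < r) (hr1 : r < 1)
    (hγ : 0 < γ) (hγr : 1 + θ < γ * (-Real.log r)) (hδ : 0 < δ) {K : ℕ} (hK : 1 ≤ K) (hM : (1 / 2 + δ) * Mf θ K ≤ r) :
    ∀ᵐ ω ∂μ, ∀ᶠ n : ℕ in atTop, ¬ Good B (VC μ ℱ B δ) K 1 ω ⌊γ * Real.log n⌋₊ ∅ n := by
  set a : ℝ := -(θ + γ * Real.log r) with ha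
  have ha1 : 1 < a := by rw [ha]; linarith
  have hsum : Summable (fun n : ℕ => (1 / r) * (1 / (n : ℝ) ^ a)) := (Real.summable_one_div_nat_rpow.2 ha1).mul_left _
  have hbc := bc_real (μ := μ) (s := fun n : ℕ => {ω | Good B (VC μ ℱ B δ) K 1 ω ⌊γ * Real.log n⌋₊ ∅ n}) hsum (by
    filter_upwards [eventually_ge_atTop 1] with n hn
    have hn0 : (0 : ℝ) < n := by exact_mod_cast hn
    have h1 := good_start (μ := μ) hB (V := VC μ ℱ B δ) (fun n => VC_meas δ n) (q := 1 / 2 + δ) (by positivity)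
      (fun n ω h => VC_bd n ω h) hθ hK one_pos ⌊γ * Real.log n⌋₊ n
    refine h1.trans ?_
    rw [Real.one_rpow, div_one]
    have hM0 : 0 ≤ (1 / 2 + δ) * Mf θ K := by
      unfold Mf
      positivity
    have h2 : ((1 / 2 + δ) * Mf θ K) ^ ⌊γ * Real.log n⌋₊ ≤ r ^ ⌊γ * Real.log n⌋₊ := pow_le_pow_left₀ hM0 hM _
    have h3 : r ^ ⌊γ * Real.log n⌋₊ ≤ r ^ (γ * Real.log n - 1) := by
      rw [← Real.rpow_natCast]
      exact Real.rpow_le_rpow_of_exponent_ge hr0 hr1.le (Nat.sub_one_lt_floor _).le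
    have h4 : r ^ (γ * Real.log n - 1) * (n : ℝ) ^ θ = 1 / r * (1 / (n : ℝ) ^ a) := by
      rw [Real.rpow_sub hr0, Real.rpow_one]
      have e1 : r ^ (γ * Real.log n) = (n : ℝ) ^ (γ * Real.log r) := by
        rw [Real.rpow_def_of_pos hr0, Real.rpow_def_of_pos hn0]
        congr 1
        ring
      have e2 : 1 / (n : ℝ) ^ a = (n : ℝ) ^ (γ * Real.log r) * (n : ℝ) ^ θ := by
        rw [← Real.rpow_add hn0, one_div, ← Real.rpow_neg hn0.le]
        congr 1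
        rw [ha]
        ring
      rw [e1, e2]
      ring
    calc ((1 / 2 + δ) * Mf θ K) ^ ⌊γ * Real.log n⌋₊ * (n : ℝ) ^ θ ≤ r ^ (γ * Real.log n - 1) * (n : ℝ) ^ θ :=
          mul_le_mul_of_nonneg_right (h2.trans h3) (by positivity)
      _ = _ := h4)
  filter_upwards [hbc] with ω hω
  filter_upwards [hω] with n hn h
  exact hn h

/-- large values do not occur -/
lemma high (hB : ∀ n, MeasurableSet[ℱ n] (B n)) {θ r b γ δ : ℝ} (hθ : 0 < θ) (hr0 : 0 < r) (hr1 : r < 1)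
    (hb : 1 < (b - 1) * θ) (hδ : 0 < δ) {K : ℕ} (hK : 1 ≤ K) (hM : (1 / 2 + δ) * Mf θ K ≤ r) :
    ∀ᵐ ω ∂μ, ∀ᶠ n : ℕ in atTop, ∀ k ≤ ⌊γ * Real.log n⌋₊, ¬ Good B (VC μ ℱ B δ) K ((n : ℝ) ^ b) ω k ∅ n := by
  have hsum : Summable (fun n : ℕ => (1 - r)⁻¹ * (1 / (n : ℝ) ^ ((b - 1) * θ))) :=
    (Real.summable_one_div_nat_rpow.2 hb).mul_left _
  have hbc := bc_real (μ := μ) (s := fun n : ℕ => ⋃ k ∈ Finset.range (⌊γ * Real.log n⌋₊ + 1),
      {ω | Good B (VC μ ℱ B δ) K ((n : ℝ) ^ b) ω k ∅ n}) hsum (by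
    filter_upwards [eventually_ge_atTop 1] with n hn
    have hn0 : (0 : ℝ) < n := by exact_mod_cast hn
    have hM0 : 0 ≤ (1 / 2 + δ) * Mf θ K := by
      unfold Mf
      positivity
    refine (measureReal_biUnion_finset_le _ _).trans ?_
    have e1 : (n : ℝ) ^ θ / ((n : ℝ) ^ b) ^ θ = 1 / (n : ℝ) ^ ((b - 1) * θ) := by
      rw [← Real.rpow_mul hn0.le, ← Real.rpow_sub hn0, one_div, ← Real.rpow_neg hn0.le]
      congr 1
      ring
    calc ∑ k ∈ Finset.range (⌊γ * Real.log n⌋₊ + 1), μ.real {ω | Good B (VC μ ℱ B δ) K ((n : ℝ) ^ b) ω k ∅ n}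
        ≤ ∑ k ∈ Finset.range (⌊γ * Real.log n⌋₊ + 1), r ^ k * (1 / (n : ℝ) ^ ((b - 1) * θ)) := by
          refine Finset.sum_le_sum fun k _ => ?_
          have h1 := good_start (μ := μ) hB (V := VC μ ℱ B δ) (fun n => VC_meas δ n) (q := 1 / 2 + δ) (by positivity)
            (fun n ω h => VC_bd n ω h) hθ hK (Y := (n : ℝ) ^ b) (by positivity) k n
          refine h1.trans ?_
          rw [e1]
          exact mul_le_mul_of_nonneg_right (pow_le_pow_left₀ hM0 hM _) (by positivity)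
      _ = (∑ k ∈ Finset.range (⌊γ * Real.log n⌋₊ + 1), r ^ k) * (1 / (n : ℝ) ^ ((b - 1) * θ)) := by
          rw [Finset.sum_mul]
      _ ≤ (1 - r)⁻¹ * (1 / (n : ℝ) ^ ((b - 1) * θ)) := by
          apply mul_le_mul_of_nonneg_right _ (by positivity)
          rw [← tsum_geometric_of_lt_one hr0.le hr1]
          exact Summable.sum_le_tsum _ (fun _ _ => by positivity) (summable_geometric_of_lt_one hr0.le hr1))
  filter_upwards [hbc] with ω hω
  filter_upwards [hω] with n hn k hk h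
  apply hn
  rw [mem_iUnion₂]
  exact ⟨k, Finset.mem_range.2 (by omega), h⟩

/-- infinite stays do not occur -/
lemma never (hB : ∀ n, MeasurableSet[ℱ n] (B n)) {θ r δ : ℝ} (hθ : 0 < θ) (hr0 : 0 < r) (hr1 : r < 1)
    (hδ : 0 < δ) {K : ℕ} (hK : 1 ≤ K) (hM : (1 / 2 + δ) * Mf θ K ≤ r) (n : ℕ) :
    ∀ᵐ ω ∂μ, ∃ k, ¬ Good B (VC μ ℱ B δ) K 1 ω k ∅ n := by
  have hM0 : 0 ≤ (1 / 2 + δ) * Mf θ K := by
    unfold Mf
    positivity
  have h1 : ∀ k : ℕ, μ.real {ω | ∀ k, Good B (VC μ ℱ B δ) K 1 ω k ∅ n} ≤ r ^ k * (n : ℝ) ^ θ := by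
    intro k
    have h2 := good_start (μ := μ) hB (V := VC μ ℱ B δ) (fun n => VC_meas δ n) (q := 1 / 2 + δ) (by positivity)
      (fun n ω h => VC_bd n ω h) hθ hK one_pos k n
    rw [Real.one_rpow, div_one] at h2
    exact (measureReal_mono (fun ω (hω : ∀ k, Good B (VC μ ℱ B δ) K 1 ω k ∅ n) => hω k)).trans (h2.trans (mul_le_mul_of_nonneg_right (pow_le_pow_left₀ hM0 hM _) (by positivity)))
  have h2 : Tendsto (fun k : ℕ => r ^ k * (n : ℝ) ^ θ) atTop (𝓝 (0 * (n : ℝ) ^ θ)) :=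
    (tendsto_pow_atTop_nhds_zero_of_lt_one hr0.le hr1).mul_const _
  rw [zero_mul] at h2
  have h3 : μ.real {ω | ∀ k, Good B (VC μ ℱ B δ) K 1 ω k ∅ n} = 0 :=
    le_antisymm (ge_of_tendsto' h2 h1) measureReal_nonneg
  rw [measureReal_eq_zero_iff] at h3
  have h4 := measure_eq_zero_iff_ae_notMem.1 h3
  filter_upwards [h4] with ω hω
  by_contra hcon
  push Not at hcon
  exact hω hcon

/-! ### The deterministic part -/

/-- the trajectory of `n` -/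
def orb (f : ℕ → ℕ) (n : ℕ) : Set ℕ := Set.range (fun i => f^[i] n)

lemma good_of (V : ℕ → Set Ω) (K : ℕ) (Y : ℝ) (ω : Ω) (k : ℕ) : ∀ (F : Finset ℕ) (n : ℕ),
    (∀ i < k, K < (T B ω)^[i] n ∧ (T B ω)^[i] n ∉ F ∧ ω ∉ V ((T B ω)^[i] n - 1) ∧
      ∀ j < i, (T B ω)^[j] n ≠ (T B ω)^[i] n) → Y ≤ ((T B ω)^[k] n : ℕ) → Good B V K Y ω k F n := by
  induction k with
  | zero => intro F n _ h; exact h
  | succ k ih =>
    intro F n h hY
    obtain ⟨h1, h2, h3, -⟩ := h 0 (by omega)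
    refine ⟨h1, h2, h3, ih (insert n F) (T B ω n) ?_ ?_⟩
    · intro i hi
      obtain ⟨g1, g2, g3, g4⟩ := h (i + 1) (by omega)
      rw [Function.iterate_succ_apply] at g1 g2 g3
      refine ⟨g1, ?_, g3, ?_⟩
      · rw [Finset.mem_insert, not_or]
        refine ⟨?_, g2⟩
        have := g4 0 (by omega)
        rw [Function.iterate_zero, id, Function.iterate_succ_apply] at this
        exact this.symm
      · intro j hj
        have := g4 (j + 1) (by omega)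
        rw [Function.iterate_succ_apply, Function.iterate_succ_apply] at this
        exact this
    · rwa [Function.iterate_succ_apply] at hY

section det

variable {V : ℕ → Set Ω} {ω : Ω} {K : ℕ}

lemma orb_sub {f : ℕ → ℕ} (n i : ℕ) : orb f (f^[i] n) ⊆ orb f n := by
  rintro x ⟨j, rfl⟩
  exact ⟨j + i, by simp only [Function.iterate_add_apply]⟩

lemma orb_split {f : ℕ → ℕ} (n i : ℕ) :
    orb f n ⊆ ((Finset.range i).image (fun j => f^[j] n) : Finset ℕ) ∪ orb f (f^[i] n) := by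
  rintro x ⟨j, rfl⟩
  by_cases h : j < i
  · left
    simp only [Finset.coe_image, Finset.coe_range, mem_image, mem_Iio]
    exact ⟨j, h, rfl⟩
  · right
    refine ⟨j - i, ?_⟩
    show f^[j - i] (f^[i] n) = f^[j] n
    rw [← Function.iterate_add_apply]
    congr 2
    omega

lemma orb_period {f : ℕ → ℕ} {n i j : ℕ} (hij : i < j) (h : f^[i] n = f^[j] n) :
    orb f n ⊆ ((Finset.range j).image (fun l => f^[l] n) : Finset ℕ) := by
  rintro x ⟨l, rfl⟩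
  simp only [Finset.coe_image, Finset.coe_range, mem_image, mem_Iio]
  induction l using Nat.strong_induction_on with
  | _ l ih =>
    by_cases hl : l < j
    · exact ⟨l, hl, rfl⟩
    · obtain ⟨l', hl', h2⟩ := ih (l - (j - i)) (by omega)
      refine ⟨l', hl', ?_⟩
      rw [h2]
      have e1 : l - (j - i) = (l - j) + i := by omega
      have e2 : l = (l - j) + j := by omega
      rw [e1, Function.iterate_add_apply, h, ← Function.iterate_add_apply, ← e2]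

/-- all trajectories are finite -/
lemma orb_fin (hV : ∀ x, K < x → ω ∉ V (x - 1)) (ha : ∀ n, ∃ k, ¬ Good B V K 1 ω k ∅ n) (n : ℕ) :
    (orb (T B ω) n).Finite := by
  by_contra hcon
  have hinj : ∀ i j, i < j → (T B ω)^[i] n ≠ (T B ω)^[j] n := fun i j hij h =>
    hcon ((Finset.finite_toSet _).subset (orb_period hij h))
  have hinj' : Function.Injective (fun i => (T B ω)^[i] n) := by
    intro i j h
    rcases lt_trichotomy i j with h1 | h1 | h1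
    · exact absurd h (hinj i j h1)
    · exact h1
    · exact absurd h.symm (hinj j i h1)
  have hfin : ((fun i => (T B ω)^[i] n) ⁻¹' (Set.Iic K)).Finite := (Set.finite_Iic K).preimage hinj'.injOn
  obtain ⟨i₀, hi₀⟩ := hfin.bddAbove
  obtain ⟨k, hk⟩ := ha ((T B ω)^[i₀ + 1] n)
  apply hk
  apply good_of
  · intro i hi
    have e : (T B ω)^[i] ((T B ω)^[i₀ + 1] n) = (T B ω)^[i + (i₀ + 1)] n := by rw [← Function.iterate_add_apply]
    have h1 : K < (T B ω)^[i + (i₀ + 1)] n := by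
      by_contra h
      have := hi₀ (show i + (i₀ + 1) ∈ (fun i => (T B ω)^[i] n) ⁻¹' (Set.Iic K) from not_lt.1 h)
      omega
    rw [e]
    refine ⟨h1, by simp, hV _ h1, fun j hj => ?_⟩
    rw [← Function.iterate_add_apply]
    exact hinj _ _ (by omega)
  · have h1 : K < (T B ω)^[k + (i₀ + 1)] n := by
      by_contra h
      have := hi₀ (show k + (i₀ + 1) ∈ (fun i => (T B ω)^[i] n) ⁻¹' (Set.Iic K) from not_lt.1 h)
      omega
    rw [← Function.iterate_add_apply]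
    have h2 : 1 ≤ (T B ω)^[k + (i₀ + 1)] n := by omega
    exact_mod_cast h2

/-- what the failure of a long stay means -/
lemma not_good (hV : ∀ x, K < x → ω ∉ V (x - 1)) {k n : ℕ} (h : ¬ Good B V K 1 ω k ∅ n) :
    (∃ i ≤ k, (T B ω)^[i] n ≤ K) ∨ ∃ i j, i < j ∧ j < k ∧ (T B ω)^[i] n = (T B ω)^[j] n := by
  by_contra hcon
  push Not at hcon
  obtain ⟨h1, h2⟩ := hcon
  apply h
  apply good_of
  · intro i hi
    exact ⟨h1 i hi.le, by simp, hV _ (h1 i hi.le), fun j hj => h2 j i hj hi⟩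
  · have := h1 k le_rfl
    have h3 : 1 ≤ (T B ω)^[k] n := by omega
    exact_mod_cast h3

/-- the size of the trajectories -/
lemma orb_size (hV : ∀ x, K < x → ω ∉ V (x - 1)) (ha : ∀ n, ∃ k, ¬ Good B V K 1 ω k ∅ n) : ∃ C : ℕ, ∀ k n,
    ¬ Good B V K 1 ω k ∅ n → (orb (T B ω) n).ncard ≤ k + C := by
  classical
  refine ⟨∑ m ∈ Finset.range (K + 1), (orb (T B ω) m).ncard, fun k n h => ?_⟩
  rcases not_good hV h with ⟨i, hi, h1⟩ | ⟨i, j, hij, hj, h1⟩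
  · have h2 : orb (T B ω) n ⊆ ((Finset.range i).image (fun j => (T B ω)^[j] n) : Finset ℕ) ∪ orb (T B ω) ((T B ω)^[i] n) :=
      orb_split n i
    have h3 := Set.ncard_le_ncard h2 ((Finset.finite_toSet _).union (orb_fin hV ha _))
    have h4 := Set.ncard_union_le ((((Finset.range i).image (fun j => (T B ω)^[j] n) : Finset ℕ)) : Set ℕ) (orb (T B ω) ((T B ω)^[i] n))
    rw [Set.ncard_coe_finset] at h4
    have h5 : ((Finset.range i).image (fun j => (T B ω)^[j] n)).card ≤ i := Finset.card_image_le.trans (by simp)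
    have h6 : (orb (T B ω) ((T B ω)^[i] n)).ncard ≤ ∑ m ∈ Finset.range (K + 1), (orb (T B ω) m).ncard :=
      Finset.single_le_sum (f := fun m => (orb (T B ω) m).ncard) (fun _ _ => Nat.zero_le _) (Finset.mem_range.2 (by omega))
    omega
  · have h3 := Set.ncard_le_ncard (orb_period hij h1) (Finset.finite_toSet _)
    rw [Set.ncard_coe_finset] at h3
    have h5 : ((Finset.range j).image (fun l => (T B ω)^[l] n)).card ≤ j := Finset.card_image_le.trans (by simp)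
    omega

/-- the largest value of the trajectories -/
lemma orb_max (hV : ∀ x, K < x → ω ∉ V (x - 1)) (ha : ∀ n, ∃ k, ¬ Good B V K 1 ω k ∅ n) : ∃ C : ℕ, ∀ (Y : ℝ) (k n : ℕ),
    C ≤ Y → ¬ Good B V K 1 ω k ∅ n → (∀ j ≤ k, ¬ Good B V K Y ω j ∅ n) → ∀ x ∈ orb (T B ω) n, (x : ℝ) ≤ Y := by
  classical
  have hb : ∀ m, ∃ C : ℕ, ∀ x ∈ orb (T B ω) m, x ≤ C := fun m => (orb_fin hV ha m).bddAbove
  choose C hC using hb
  refine ⟨∑ m ∈ Finset.range (K + 1), C m, fun Y k n hY hk hj x hx => ?_⟩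
  by_contra hcon
  push Not at hcon
  obtain ⟨j₀, hj₀⟩ := hx
  have hex : ∃ j : ℕ, Y < ((T B ω)^[j] n : ℕ) := ⟨j₀, by
    have hj₀ : (T B ω)^[j₀] n = x := hj₀
    rw [hj₀]; exact hcon⟩
  set j := Nat.find hex with hjd
  have h1 : Y < ((T B ω)^[j] n : ℕ) := Nat.find_spec hex
  have h2 : ∀ i < j, (((T B ω)^[i] n : ℕ) : ℝ) ≤ Y := fun i hi => not_lt.1 (Nat.find_min hex hi)
  have h3 : ∀ i ≤ j, K < (T B ω)^[i] n := by
    intro i hi
    by_contra h
    push Not at h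
    have h4 : (T B ω)^[j] n ∈ orb (T B ω) ((T B ω)^[i] n) := ⟨j - i, by
      show (T B ω)^[j - i] ((T B ω)^[i] n) = _
      rw [← Function.iterate_add_apply]
      congr 2
      omega⟩
    have h5 := hC _ _ h4
    have h6 : C ((T B ω)^[i] n) ≤ ∑ m ∈ Finset.range (K + 1), C m :=
      Finset.single_le_sum (f := C) (fun _ _ => Nat.zero_le _) (Finset.mem_range.2 (by omega))
    have h7 : (((T B ω)^[j] n : ℕ) : ℝ) ≤ ((∑ m ∈ Finset.range (K + 1), C m : ℕ) : ℝ) := by exact_mod_cast h5.trans h6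
    linarith
  have h4 : ∀ i < j, ∀ l < i, (T B ω)^[l] n ≠ (T B ω)^[i] n := by
    intro i hi l hl h
    have h5 : (T B ω)^[j] n = (T B ω)^[j - (i - l)] n := by
      have e1 : j = (j - i) + i := by omega
      have e2 : j - (i - l) = (j - i) + l := by omega
      rw [e2, Function.iterate_add_apply, h, ← Function.iterate_add_apply, ← e1]
    have h6 := h2 (j - (i - l)) (by omega)
    rw [← h5] at h6
    linarith
  have hjk : j ≤ k := by
    by_contra h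
    push Not at h
    apply hk
    apply good_of
    · intro i hi
      exact ⟨h3 i (by omega), by simp, hV _ (h3 i (by omega)), fun l hl => h4 i (by omega) l hl⟩
    · have := h3 k h.le
      have h3 : 1 ≤ (T B ω)^[k] n := by omega
      exact_mod_cast h3
  apply hj j hjk
  apply good_of
  · intro i hi
    exact ⟨h3 i hi.le, by simp, hV _ (h3 i hi.le), fun l hl => h4 i hi l hl⟩
  · exact h1.le

end det

/-! ### The theorems -/

/-- **random Collatz maps have no divergent trajectories** -/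
theorem all_finite (hB : ∀ n, MeasurableSet[ℱ n] (B n))
    (hd : ∀ᵐ ω ∂μ, Tendsto (fun n : ℕ => dens μ ℱ B n ω) atTop (𝓝 (1 / 2))) :
    ∀ᵐ ω ∂μ, ∀ n, (orb (T B ω) n).Finite := by
  have hm := mm_lt (θ := 1 / 2) (by norm_num) (by norm_num)
  obtain ⟨r, hr, hr1⟩ := exists_between hm
  have hr0 : 0 < r := (mm_pos _).trans hr
  obtain ⟨δ, hδ, K₀, hK₀⟩ := param (θ := 1 / 2) (by norm_num) hr
  have h1 : ∀ᵐ ω ∂μ, ∀ K n : ℕ, K₀ ≤ K → ∃ k, ¬ Good B (VC μ ℱ B δ) K 1 ω k ∅ n := by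
    rw [ae_all_iff]
    intro K
    rw [ae_all_iff]
    intro n
    by_cases hK : K₀ ≤ K
    · filter_upwards [never (μ := μ) (ℱ := ℱ) hB (by norm_num) hr0 hr1 hδ (hK₀ K hK).1 (hK₀ K hK).2 n] with ω hω _
      exact hω
    · exact Eventually.of_forall fun ω h => absurd h hK
  filter_upwards [h1, hd] with ω h2 h3 n
  obtain ⟨n₀, hn₀⟩ := no_VC h3 hδ
  exact orb_fin (V := VC μ ℱ B δ) (K := max K₀ (n₀ + 1)) (fun x hx => hn₀ _ (by
    have := (le_max_right K₀ (n₀ + 1)).trans_lt hx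
    omega)) (fun n => h2 _ n (le_max_left _ _)) n

/-- **the size of the trajectories** -/
theorem size (hB : ∀ n, MeasurableSet[ℱ n] (B n))
    (hd : ∀ᵐ ω ∂μ, Tendsto (fun n : ℕ => dens μ ℱ B n ω) atTop (𝓝 (1 / 2))) {θ γ : ℝ} (hθ : 0 < θ) (hθ1 : θ < 1)
    (hγ : (1 + θ) / (-Real.log (mm θ)) < γ) :
    ∀ᵐ ω ∂μ, ∀ᶠ n : ℕ in atTop, ((orb (T B ω) n).ncard : ℝ) ≤ γ * Real.log n := by
  have hm := mm_lt hθ hθ1
  have hm0 := mm_pos θ
  have hlm : 0 < -Real.log (mm θ) := by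
    have := Real.log_neg hm0 hm
    linarith
  -- intermediate constants
  obtain ⟨γ', hγ1, hγ2⟩ := exists_between hγ
  have hγ'0 : 0 < γ' := lt_trans (by positivity) hγ1
  have hγ3 : 1 + θ < γ' * (-Real.log (mm θ)) := by
    rwa [div_lt_iff₀ hlm] at hγ1
  obtain ⟨r, hr, hr1, hr2⟩ : ∃ r, mm θ < r ∧ r < 1 ∧ 1 + θ < γ' * (-Real.log r) := by
    have h1 : ContinuousAt (fun r => γ' * (-Real.log r)) (mm θ) := by
      have := Real.continuousAt_log hm0.ne'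
      fun_prop
    have h2 : ∀ᶠ r in 𝓝[>] (mm θ), 1 + θ < γ' * (-Real.log r) :=
      (h1.tendsto.mono_left nhdsWithin_le_nhds).eventually (lt_mem_nhds hγ3)
    have h3 : ∀ᶠ r in 𝓝[>] (mm θ), r < 1 := (Ioo_mem_nhdsGT hm) |> fun h => by
      filter_upwards [h] with r hr
      exact hr.2
    obtain ⟨r, g1, g2, g3⟩ := (h2.and (h3.and self_mem_nhdsWithin)).exists
    exact ⟨r, g3, g2, g1⟩
  have hr0 : 0 < r := hm0.trans hr
  obtain ⟨δ, hδ, K₀, hK₀⟩ := param hθ hr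
  have h1 : ∀ᵐ ω ∂μ, ∀ K : ℕ, K₀ ≤ K → (∀ n, ∃ k, ¬ Good B (VC μ ℱ B δ) K 1 ω k ∅ n) ∧
      ∀ᶠ n : ℕ in atTop, ¬ Good B (VC μ ℱ B δ) K 1 ω ⌊γ' * Real.log n⌋₊ ∅ n := by
    rw [ae_all_iff]
    intro K
    by_cases hK : K₀ ≤ K
    · have h2 : ∀ᵐ ω ∂μ, ∀ n, ∃ k, ¬ Good B (VC μ ℱ B δ) K 1 ω k ∅ n :=
        ae_all_iff.2 fun n => never (μ := μ) (ℱ := ℱ) hB hθ hr0 hr1 hδ (hK₀ K hK).1 (hK₀ K hK).2 n
      filter_upwards [h2, long (μ := μ) (ℱ := ℱ) hB hθ hr0 hr1 hγ'0 hr2 hδ (hK₀ K hK).1 (hK₀ K hK).2] with ω g1 g2 _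
      exact ⟨g1, g2⟩
    · exact Eventually.of_forall fun ω h => absurd h hK
  filter_upwards [h1, hd] with ω h2 h3
  obtain ⟨n₀, hn₀⟩ := no_VC h3 hδ
  set K := max K₀ (n₀ + 1) with hKd
  obtain ⟨h4, h5⟩ := h2 K (le_max_left _ _)
  have hV : ∀ x, K < x → ω ∉ VC μ ℱ B δ (x - 1) := fun x hx => hn₀ _ (by
    have := (le_max_right K₀ (n₀ + 1)).trans_lt hx
    omega)
  obtain ⟨C, hC⟩ := orb_size hV h4
  have hlog : Tendsto (fun n : ℕ => Real.log n) atTop atTop := Real.tendsto_log_atTop.comp tendsto_natCast_atTop_atTop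
  filter_upwards [h5, hlog.eventually_ge_atTop (C / (γ - γ')), hlog.eventually_ge_atTop 0] with n g1 g2 g3
  have g4 := hC _ n g1
  rw [div_le_iff₀ (by linarith)] at g2
  have g5 : (⌊γ' * Real.log n⌋₊ : ℝ) ≤ γ' * Real.log n := Nat.floor_le (by positivity)
  have g6 : ((orb (T B ω) n).ncard : ℝ) ≤ ⌊γ' * Real.log n⌋₊ + C := by exact_mod_cast g4
  linarith

/-- **the largest values of the trajectories** -/
theorem largest (hB : ∀ n, MeasurableSet[ℱ n] (B n))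
    (hd : ∀ᵐ ω ∂μ, Tendsto (fun n : ℕ => dens μ ℱ B n ω) atTop (𝓝 (1 / 2))) {ε : ℝ} (hε : 0 < ε) :
    ∀ᵐ ω ∂μ, ∀ᶠ n : ℕ in atTop, ∀ x ∈ orb (T B ω) n, (x : ℝ) ≤ (n : ℝ) ^ (2 + ε) := by
  obtain ⟨θ, hθ, hθ1⟩ := exists_between (show 1 / (1 + ε) < 1 by rw [div_lt_one (by linarith)]; linarith)
  have hθ0 : 0 < θ := lt_trans (by positivity) hθ
  have hb : 1 < ((2 + ε) - 1) * θ := by
    rw [div_lt_iff₀ (by linarith)] at hθ
    linarith
  have hm := mm_lt hθ0 hθ1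
  obtain ⟨r, hr, hr1⟩ := exists_between hm
  have hr0 : 0 < r := (mm_pos _).trans hr
  have hlr : 0 < -Real.log r := by
    have := Real.log_neg hr0 hr1
    linarith
  set γ := (1 + θ) / (-Real.log r) + 1 with hγ
  have hγ0 : 0 < γ := by positivity
  have hγr : 1 + θ < γ * (-Real.log r) := by
    rw [hγ, add_mul, div_mul_cancel₀ _ hlr.ne']
    linarith
  obtain ⟨δ, hδ, K₀, hK₀⟩ := param hθ0 hr
  have h1 : ∀ᵐ ω ∂μ, ∀ K : ℕ, K₀ ≤ K → (∀ n, ∃ k, ¬ Good B (VC μ ℱ B δ) K 1 ω k ∅ n) ∧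
      (∀ᶠ n : ℕ in atTop, ¬ Good B (VC μ ℱ B δ) K 1 ω ⌊γ * Real.log n⌋₊ ∅ n) ∧
      (∀ᶠ n : ℕ in atTop, ∀ k ≤ ⌊γ * Real.log n⌋₊, ¬ Good B (VC μ ℱ B δ) K ((n : ℝ) ^ (2 + ε)) ω k ∅ n) := by
    rw [ae_all_iff]
    intro K
    by_cases hK : K₀ ≤ K
    · have h2 : ∀ᵐ ω ∂μ, ∀ n, ∃ k, ¬ Good B (VC μ ℱ B δ) K 1 ω k ∅ n :=
        ae_all_iff.2 fun n => never (μ := μ) (ℱ := ℱ) hB hθ0 hr0 hr1 hδ (hK₀ K hK).1 (hK₀ K hK).2 n
      filter_upwards [h2, long (μ := μ) (ℱ := ℱ) hB hθ0 hr0 hr1 hγ0 hγr hδ (hK₀ K hK).1 (hK₀ K hK).2,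
        high (μ := μ) (ℱ := ℱ) (γ := γ) hB hθ0 hr0 hr1 hb hδ (hK₀ K hK).1 (hK₀ K hK).2] with ω g1 g2 g3 _
      exact ⟨g1, g2, g3⟩
    · exact Eventually.of_forall fun ω h => absurd h hK
  filter_upwards [h1, hd] with ω h2 h3
  obtain ⟨n₀, hn₀⟩ := no_VC h3 hδ
  set K := max K₀ (n₀ + 1) with hKd
  obtain ⟨h4, h5, h6⟩ := h2 K (le_max_left _ _)
  have hV : ∀ x, K < x → ω ∉ VC μ ℱ B δ (x - 1) := fun x hx => hn₀ _ (by
    have := (le_max_right K₀ (n₀ + 1)).trans_lt hx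
    omega)
  obtain ⟨C, hC⟩ := orb_max hV h4
  have hlim : Tendsto (fun n : ℕ => (n : ℝ) ^ (2 + ε)) atTop atTop :=
    (tendsto_rpow_atTop (by linarith)).comp tendsto_natCast_atTop_atTop
  filter_upwards [h5, h6, hlim.eventually_ge_atTop (C : ℝ)] with n g1 g2 g3
  exact hC _ _ n g3 g1 g2

end Pool.Agent.N909.CM
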