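import Mathlib
import Pool.Agent.N909.CM.Fin

set_option autoImplicit false
set_option linter.unusedSectionVars false

/-! # Random Collatz maps: paths with weights -/

open MeasureTheory Filter Set
open scoped ENNReal Topology

namespace Pool.Agent.N909.CM

open Pool.Agent.R528.RM

variable {Ω : Type} {m0 : MeasurableSpace Ω} {μ : Measure Ω} [IsProbabilityMeasure μ]
  {ℱ : Filtration ℕ m0} {B : ℕ → Set Ω}

open Classical in
/-- the weight after one step -/
noncomputable def wt (B : ℕ → Set Ω) (t : ℝ) (ω : Ω) (n : ℕ) (w : ℝ) : ℝ := if ω ∈ B n then w * Real.exp t else w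

/-- the trajectory of `n` stays above `K` and meets no position twice and no violation for `k` steps;
the weight `w` is multiplied by `e^t` at every step up, and at the end weight times the `θ`-th power of the
value is at least `Y` -/
def Good2 (B V : ℕ → Set Ω) (K : ℕ) (θ t Y : ℝ) (ω : Ω) : ℕ → Finset ℕ → ℕ → ℝ → Prop
  | 0, _, n, w => Y ≤ w * (n : ℝ) ^ θ
  | k + 1, F, n, w => K < n ∧ n ∉ F ∧ ω ∉ V (n - 1) ∧ Good2 B V K θ t Y ω k (insert n F) (T B ω n) (wt B t ω n w)

/-- one more decision: the combinatorics -/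
lemma ins_facts (G : Finset (ℕ × Bool)) (n : ℕ) (hn : 1 ≤ n) (hnG : n ∉ G.image Prod.fst)
    (hinj : Set.InjOn Prod.fst (G : Set (ℕ × Bool))) (hpos : ∀ p ∈ G, 1 ≤ p.1) (b : Bool) :
    Set.InjOn Prod.fst ((insert (n, b) G : Finset (ℕ × Bool)) : Set (ℕ × Bool)) ∧
      (∀ p ∈ insert (n, b) G, 1 ≤ p.1) ∧ (insert (n, b) G).card = G.card + 1 ∧
      (insert (n, b) G).image Prod.fst = insert n (G.image Prod.fst) := by
  have hnb : (n, b) ∉ G := fun h => hnG (Finset.mem_image_of_mem Prod.fst h)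
  refine ⟨?_, ?_, Finset.card_insert_of_notMem hnb, by rw [Finset.image_insert]⟩
  · rw [Finset.coe_insert, Set.injOn_insert (by simpa using hnb)]
    refine ⟨hinj, ?_⟩
    rintro ⟨p, hp, hp2⟩
    exact hnG (Finset.mem_image.2 ⟨p, by simpa using hp, hp2⟩)
  · intro p hp
    rw [Finset.mem_insert] at hp
    rcases hp with h | h
    · rw [h]; exact hn
    · exact hpos p h

/-- one more decision: the split of an event -/
lemma ins_split {V : ℕ → Set Ω} (G : Finset (ℕ × Bool)) (n : ℕ) (P Pt Pf : Ω → Prop)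
    (h1 : ∀ ω, ω ∈ B n → P ω → ω ∉ V (n - 1) ∧ Pt ω) (h2 : ∀ ω, ω ∉ B n → P ω → ω ∉ V (n - 1) ∧ Pf ω) :
    {ω | ω ∈ Ev B G \ Vi V G ∧ P ω} ⊆
      {ω | ω ∈ Ev B (insert (n, true) G) \ Vi V (insert (n, true) G) ∧ Pt ω} ∪
      {ω | ω ∈ Ev B (insert (n, false) G) \ Vi V (insert (n, false) G) ∧ Pf ω} := by
  rintro ω ⟨⟨g1, g2⟩, h6⟩
  by_cases hb : ω ∈ B n
  · left
    obtain ⟨h5, h7⟩ := h1 ω hb h6
    refine ⟨⟨?_, ?_⟩, h7⟩
    · rw [Ev_insert]
      exact ⟨by simp [hb], g1⟩
    · rw [Vi_insert]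
      rintro (h | h)
      · exact h5 h
      · exact g2 h
  · right
    obtain ⟨h5, h7⟩ := h2 ω hb h6
    refine ⟨⟨?_, ?_⟩, h7⟩
    · rw [Ev_insert]
      exact ⟨by simp [hb], g1⟩
    · rw [Vi_insert]
      rintro (h | h)
      · exact h5 h
      · exact g2 h

/-- **the probability of a weighted path** -/
theorem good2_le (hB : ∀ n, MeasurableSet[ℱ n] (B n)) {V : ℕ → Set Ω} (hV : ∀ n, MeasurableSet[ℱ n] (V n)) {q : ℝ}
    (hq : 0 ≤ q) (hd : ∀ n ω, ω ∉ V n → 1 - q ≤ dens μ ℱ B n ω ∧ dens μ ℱ B n ω ≤ q) {θ t M : ℝ} (hM0 : 0 ≤ M) {K : ℕ}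
    (hM : ∀ n : ℕ, K < n → Real.exp t * ((stp true n : ℕ) : ℝ) ^ θ + ((stp false n : ℕ) : ℝ) ^ θ ≤ M * (n : ℝ) ^ θ)
    {Y : ℝ} (hY : 0 < Y) (k : ℕ) : ∀ (G : Finset (ℕ × Bool)) (n : ℕ) (w : ℝ), 0 ≤ w →
    Set.InjOn Prod.fst (G : Set (ℕ × Bool)) → (∀ p ∈ G, 1 ≤ p.1) →
    μ.real {ω | ω ∈ Ev B G \ Vi V G ∧ Good2 B V K θ t Y ω k (G.image Prod.fst) n w} ≤
      q ^ G.card * (q * M) ^ k * (w * (n : ℝ) ^ θ / Y) := by
  classical
  induction k with
  | zero =>
    intro G n w hw hinj hpos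
    rw [pow_zero, mul_one]
    by_cases h : Y ≤ w * (n : ℝ) ^ θ
    · have h1 : 1 ≤ w * (n : ℝ) ^ θ / Y := by rwa [one_le_div hY]
      have h2 : μ.real {ω | ω ∈ Ev B G \ Vi V G ∧ Good2 B V K θ t Y ω 0 (G.image Prod.fst) n w} ≤ q ^ G.card :=
        (measureReal_mono fun ω hω => hω.1).trans (ev_le hB hV hq hd G hinj hpos)
      calc _ ≤ q ^ G.card := h2
        _ = q ^ G.card * 1 := (mul_one _).symm
        _ ≤ _ := mul_le_mul_of_nonneg_left h1 (by positivity)
    · have : {ω | ω ∈ Ev B G \ Vi V G ∧ Good2 B V K θ t Y ω 0 (G.image Prod.fst) n w} = ∅ := by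
        ext ω
        simp only [mem_ofPred_eq, mem_empty_iff_false, iff_false]
        exact fun hω => h hω.2
      rw [this, measureReal_empty]
      positivity
  | succ k ih =>
    intro G n w hw hinj hpos
    by_cases h : K < n ∧ n ∉ G.image Prod.fst
    · obtain ⟨hn, hnG⟩ := h
      have hins := ins_facts G n (by omega) hnG hinj hpos
      have hsub := ins_split (V := V) (B := B) G n
        (fun ω => Good2 B V K θ t Y ω (k + 1) (G.image Prod.fst) n w)
        (fun ω => Good2 B V K θ t Y ω k ((insert (n, true) G).image Prod.fst) (stp true n) (w * Real.exp t))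
        (fun ω => Good2 B V K θ t Y ω k ((insert (n, false) G).image Prod.fst) (stp false n) w)
        (by
          rintro ω hb ⟨h3, h4, h5, h6⟩
          refine ⟨h5, ?_⟩
          rw [(hins true).2.2.2]
          have e1 : T B ω n = stp true n := by simp [T, stp, hb]
          have e2 : wt B t ω n w = w * Real.exp t := by simp [wt, hb]
          rwa [e1, e2] at h6)
        (by
          rintro ω hb ⟨h3, h4, h5, h6⟩
          refine ⟨h5, ?_⟩
          rw [(hins false).2.2.2]
          have e1 : T B ω n = stp false n := by simp [T, stp, hb]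
          have e2 : wt B t ω n w = w := by simp [wt, hb]
          rwa [e1, e2] at h6)
      have h1 := ih (insert (n, true) G) (stp true n) (w * Real.exp t) (by positivity) (hins true).1 (hins true).2.1
      have h2 := ih (insert (n, false) G) (stp false n) w hw (hins false).1 (hins false).2.1
      rw [(hins true).2.2.1] at h1
      rw [(hins false).2.2.1] at h2
      have h3 := hM n hn
      refine (measureReal_mono hsub).trans ((measureReal_union_le _ _).trans ((add_le_add h1 h2).trans ?_))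
      rw [← mul_add, ← add_div]
      calc q ^ (G.card + 1) * (q * M) ^ k *
            ((w * Real.exp t * ((stp true n : ℕ) : ℝ) ^ θ + w * ((stp false n : ℕ) : ℝ) ^ θ) / Y)
          = q ^ (G.card + 1) * (q * M) ^ k *
            (w * (Real.exp t * ((stp true n : ℕ) : ℝ) ^ θ + ((stp false n : ℕ) : ℝ) ^ θ) / Y) := by ring
        _ ≤ q ^ (G.card + 1) * (q * M) ^ k * (w * (M * (n : ℝ) ^ θ) / Y) := by
            apply mul_le_mul_of_nonneg_left _ (by positivity)
            exact div_le_div_of_nonneg_right (mul_le_mul_of_nonneg_left h3 hw) hY.le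
        _ = _ := by ring
    · have : {ω | ω ∈ Ev B G \ Vi V G ∧ Good2 B V K θ t Y ω (k + 1) (G.image Prod.fst) n w} = ∅ := by
        ext ω
        simp only [mem_ofPred_eq, mem_empty_iff_false, iff_false]
        rintro ⟨_, h1, h2, _⟩
        exact h ⟨h1, h2⟩
      rw [this, measureReal_empty]
      positivity

/-- the same from the start -/
theorem good2_start (hB : ∀ n, MeasurableSet[ℱ n] (B n)) {V : ℕ → Set Ω} (hV : ∀ n, MeasurableSet[ℱ n] (V n)) {q : ℝ}
    (hq : 0 ≤ q) (hd : ∀ n ω, ω ∉ V n → 1 - q ≤ dens μ ℱ B n ω ∧ dens μ ℱ B n ω ≤ q) {θ t M : ℝ} (hM0 : 0 ≤ M) {K : ℕ}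
    (hM : ∀ n : ℕ, K < n → Real.exp t * ((stp true n : ℕ) : ℝ) ^ θ + ((stp false n : ℕ) : ℝ) ^ θ ≤ M * (n : ℝ) ^ θ)
    {Y : ℝ} (hY : 0 < Y) (k n : ℕ) :
    μ.real {ω | Good2 B V K θ t Y ω k ∅ n 1} ≤ (q * M) ^ k * ((n : ℝ) ^ θ / Y) := by
  classical
  have h1 := good2_le (μ := μ) hB hV hq hd hM0 hM hY k ∅ n 1 zero_le_one (by simp) (by simp)
  rw [Finset.card_empty, pow_zero, one_mul, Finset.image_empty, one_mul] at h1
  refine le_trans (le_of_eq ?_) h1
  congr 1
  ext ω
  simp [Ev, Vi]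

/-! ### Free steps first -/

/-- `i` free steps, then `l` steps with a final value at least the value after the free steps -/
def Pre (B V : ℕ → Set Ω) (K : ℕ) (θ : ℝ) (l : ℕ) (ω : Ω) : ℕ → Finset ℕ → ℕ → Prop
  | 0, F, n => K < n ∧ Good2 B V K θ 0 ((n : ℝ) ^ θ) ω l F n 1
  | i + 1, F, n => K < n ∧ n ∉ F ∧ ω ∉ V (n - 1) ∧ Pre B V K θ l ω i (insert n F) (T B ω n)

theorem pre_le (hB : ∀ n, MeasurableSet[ℱ n] (B n)) {V : ℕ → Set Ω} (hV : ∀ n, MeasurableSet[ℱ n] (V n)) {q : ℝ}
    (hq : 0 ≤ q) (hd : ∀ n ω, ω ∉ V n → 1 - q ≤ dens μ ℱ B n ω ∧ dens μ ℱ B n ω ≤ q) {θ M : ℝ} (hM0 : 0 ≤ M) {K : ℕ}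
    (hM : ∀ n : ℕ, K < n → ((stp true n : ℕ) : ℝ) ^ θ + ((stp false n : ℕ) : ℝ) ^ θ ≤ M * (n : ℝ) ^ θ)
    (l i : ℕ) : ∀ (G : Finset (ℕ × Bool)) (n : ℕ),
    Set.InjOn Prod.fst (G : Set (ℕ × Bool)) → (∀ p ∈ G, 1 ≤ p.1) →
    μ.real {ω | ω ∈ Ev B G \ Vi V G ∧ Pre B V K θ l ω i (G.image Prod.fst) n} ≤
      q ^ G.card * (2 * q) ^ i * (q * M) ^ l := by
  classical
  induction i with
  | zero =>
    intro G n hinj hpos
    rw [pow_zero, mul_one]
    by_cases h : K < n
    · have hn0 : (0 : ℝ) < n := by exact_mod_cast (by omega : 0 < n)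
      have h1 := good2_le (μ := μ) hB hV hq hd (t := 0) hM0 (by simpa using hM) (Y := (n : ℝ) ^ θ) (by positivity) l G n 1
        zero_le_one hinj hpos
      rw [one_mul, div_self (by positivity), mul_one] at h1
      have h2 : {ω | ω ∈ Ev B G \ Vi V G ∧ Pre B V K θ l ω 0 (G.image Prod.fst) n} ⊆
          {ω | ω ∈ Ev B G \ Vi V G ∧ Good2 B V K θ 0 ((n : ℝ) ^ θ) ω l (G.image Prod.fst) n 1} :=
        fun ω hω => ⟨hω.1, hω.2.2⟩
      exact (measureReal_mono h2).trans h1
    · have : {ω | ω ∈ Ev B G \ Vi V G ∧ Pre B V K θ l ω 0 (G.image Prod.fst) n} = ∅ := by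
        ext ω
        simp only [mem_ofPred_eq, mem_empty_iff_false, iff_false]
        exact fun hω => h hω.2.1
      rw [this, measureReal_empty]
      positivity
  | succ i ih =>
    intro G n hinj hpos
    by_cases h : K < n ∧ n ∉ G.image Prod.fst
    · obtain ⟨hn, hnG⟩ := h
      have hins := ins_facts G n (by omega) hnG hinj hpos
      have hsub := ins_split (V := V) (B := B) G n
        (fun ω => Pre B V K θ l ω (i + 1) (G.image Prod.fst) n)
        (fun ω => Pre B V K θ l ω i ((insert (n, true) G).image Prod.fst) (stp true n))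
        (fun ω => Pre B V K θ l ω i ((insert (n, false) G).image Prod.fst) (stp false n))
        (by
          rintro ω hb ⟨h3, h4, h5, h6⟩
          refine ⟨h5, ?_⟩
          rw [(hins true).2.2.2]
          have e1 : T B ω n = stp true n := by simp [T, stp, hb]
          rwa [e1] at h6)
        (by
          rintro ω hb ⟨h3, h4, h5, h6⟩
          refine ⟨h5, ?_⟩
          rw [(hins false).2.2.2]
          have e1 : T B ω n = stp false n := by simp [T, stp, hb]
          rwa [e1] at h6)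
      have h1 := ih (insert (n, true) G) (stp true n) (hins true).1 (hins true).2.1
      have h2 := ih (insert (n, false) G) (stp false n) (hins false).1 (hins false).2.1
      rw [(hins true).2.2.1] at h1
      rw [(hins false).2.2.1] at h2
      refine (measureReal_mono hsub).trans ((measureReal_union_le _ _).trans ((add_le_add h1 h2).trans (le_of_eq ?_)))
      ring
    · have : {ω | ω ∈ Ev B G \ Vi V G ∧ Pre B V K θ l ω (i + 1) (G.image Prod.fst) n} = ∅ := by
        ext ω
        simp only [mem_ofPred_eq, mem_empty_iff_false, iff_false]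
        rintro ⟨_, h1, h2, _⟩
        exact h ⟨h1, h2⟩
      rw [this, measureReal_empty]
      positivity

theorem pre_start (hB : ∀ n, MeasurableSet[ℱ n] (B n)) {V : ℕ → Set Ω} (hV : ∀ n, MeasurableSet[ℱ n] (V n)) {q : ℝ}
    (hq : 0 ≤ q) (hd : ∀ n ω, ω ∉ V n → 1 - q ≤ dens μ ℱ B n ω ∧ dens μ ℱ B n ω ≤ q) {θ M : ℝ} (hM0 : 0 ≤ M) {K : ℕ}
    (hM : ∀ n : ℕ, K < n → ((stp true n : ℕ) : ℝ) ^ θ + ((stp false n : ℕ) : ℝ) ^ θ ≤ M * (n : ℝ) ^ θ)
    (l i n : ℕ) : μ.real {ω | Pre B V K θ l ω i ∅ n} ≤ (2 * q) ^ i * (q * M) ^ l := by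
  classical
  have h1 := pre_le (μ := μ) hB hV hq hd hM0 hM l i ∅ n (by simp) (by simp)
  rw [Finset.card_empty, pow_zero, one_mul, Finset.image_empty] at h1
  refine le_trans (le_of_eq ?_) h1
  congr 1
  ext ω
  simp [Ev, Vi]

/-! ### The deterministic part -/

open Classical in
/-- the number of steps up among the first `k` steps from `n` -/
noncomputable def ups (B : ℕ → Set Ω) (ω : Ω) : ℕ → ℕ → ℕ
  | 0, _ => 0
  | k + 1, n => (if ω ∈ B n then 1 else 0) + ups B ω k (T B ω n)

lemma good2_of (V : ℕ → Set Ω) (K : ℕ) (θ t Y : ℝ) (ω : Ω) (k : ℕ) : ∀ (F : Finset ℕ) (n : ℕ) (w : ℝ),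
    (∀ i < k, K < (T B ω)^[i] n ∧ (T B ω)^[i] n ∉ F ∧ ω ∉ V ((T B ω)^[i] n - 1) ∧
      ∀ j < i, (T B ω)^[j] n ≠ (T B ω)^[i] n) →
    Y ≤ w * Real.exp (t * ups B ω k n) * (((T B ω)^[k] n : ℕ) : ℝ) ^ θ → Good2 B V K θ t Y ω k F n w := by
  induction k with
  | zero =>
    intro F n w _ h
    simpa [ups, Good2] using h
  | succ k ih =>
    intro F n w h hY
    obtain ⟨h1, h2, h3, -⟩ := h 0 (by omega)
    refine ⟨h1, h2, h3, ih (insert n F) (T B ω n) _ ?_ ?_⟩
    · intro i hi
      obtain ⟨g1, g2, g3, g4⟩ := h (i + 1) (by omega)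
      rw [Function.iterate_succ_apply] at g1 g2 g3
      refine ⟨g1, ?_, g3, ?_⟩
      · rw [Finset.mem_insert, not_or]
        refine ⟨?_, g2⟩
        have := g4 0 (by omega)
        rw [Function.iterate_zero, id, Function.iterate_succ_apply] at this
        exact this.symm
      · intro j hj
        have := g4 (j + 1) (by omega)
        rw [Function.iterate_succ_apply, Function.iterate_succ_apply] at this
        exact this
    · rw [Function.iterate_succ_apply] at hY
      refine hY.trans (le_of_eq ?_)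
      congr 1
      by_cases hb : ω ∈ B n
      · simp only [ups, wt, hb, if_true]
        rw [mul_assoc, ← Real.exp_add]
        congr 2
        push_cast
        ring
      · simp only [ups, wt, hb, if_false]
        rw [zero_add]

lemma pre_of (V : ℕ → Set Ω) (K : ℕ) (θ : ℝ) (ω : Ω) (l i : ℕ) : ∀ (F : Finset ℕ) (n : ℕ),
    (∀ m < i + l, K < (T B ω)^[m] n ∧ (T B ω)^[m] n ∉ F ∧ ω ∉ V ((T B ω)^[m] n - 1) ∧
      ∀ j < m, (T B ω)^[j] n ≠ (T B ω)^[m] n) → 1 ≤ l →
    (T B ω)^[i] n = (T B ω)^[i + l] n → Pre B V K θ l ω i F n := by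
  induction i with
  | zero =>
    intro F n h hl he
    rw [zero_add] at h he
    refine ⟨(h 0 (by omega)).1, good2_of V K θ 0 _ ω l F n 1 h ?_⟩
    rw [zero_mul, Real.exp_zero, one_mul, one_mul, ← he]
    exact le_rfl
  | succ i ih =>
    intro F n h hl he
    obtain ⟨h1, h2, h3, -⟩ := h 0 (by omega)
    refine ⟨h1, h2, h3, ih (insert n F) (T B ω n) ?_ hl ?_⟩
    · intro m hm
      obtain ⟨g1, g2, g3, g4⟩ := h (m + 1) (by omega)
      rw [Function.iterate_succ_apply] at g1 g2 g3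
      refine ⟨g1, ?_, g3, ?_⟩
      · rw [Finset.mem_insert, not_or]
        refine ⟨?_, g2⟩
        have := g4 0 (by omega)
        rw [Function.iterate_zero, id, Function.iterate_succ_apply] at this
        exact this.symm
      · intro j hj
        have := g4 (j + 1) (by omega)
        rw [Function.iterate_succ_apply, Function.iterate_succ_apply] at this
        exact this
    · rw [Function.iterate_succ_apply, show i + 1 + l = (i + l) + 1 by ring, Function.iterate_succ_apply] at he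
      exact he

/-- the number of steps up, as a cardinality -/
lemma ups_card (ω : Ω) (k : ℕ) : ∀ n : ℕ, (∀ i < k, ∀ j < i, (T B ω)^[j] n ≠ (T B ω)^[i] n) →
    ups B ω k n = ({x | x ∈ ((Finset.range k).image (fun i => (T B ω)^[i] n) : Finset ℕ) ∧ ω ∈ B x} : Set ℕ).ncard := by
  classical
  induction k with
  | zero =>
    intro n _
    simp [ups]
  | succ k ih =>
    intro n h
    have h1 := ih (T B ω n) (fun i hi j hj => by
      have := h (i + 1) (by omega) (j + 1) (by omega)
      rwa [Function.iterate_succ_apply, Function.iterate_succ_apply] at this)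
    have hset : ({x | x ∈ ((Finset.range (k + 1)).image (fun i => (T B ω)^[i] n) : Finset ℕ) ∧ ω ∈ B x} : Set ℕ) =
        {x | x = n ∧ ω ∈ B x} ∪ {x | x ∈ ((Finset.range k).image (fun i => (T B ω)^[i] (T B ω n)) : Finset ℕ) ∧ ω ∈ B x} := by
      ext x
      simp only [Finset.mem_image, Finset.mem_range, mem_ofPred_eq, mem_union]
      constructor
      · rintro ⟨⟨i, hi, rfl⟩, hx⟩
        rcases i with _ | i
        · left; exact ⟨rfl, hx⟩
        · right; exact ⟨⟨i, by omega, by rw [← Function.iterate_succ_apply]⟩, hx⟩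
      · rintro (⟨rfl, hx⟩ | ⟨⟨i, hi, rfl⟩, hx⟩)
        · exact ⟨⟨0, by omega, rfl⟩, hx⟩
        · exact ⟨⟨i + 1, by omega, by rw [Function.iterate_succ_apply]⟩, hx⟩
    have hfin : ({x | x ∈ ((Finset.range k).image (fun i => (T B ω)^[i] (T B ω n)) : Finset ℕ) ∧ ω ∈ B x} : Set ℕ).Finite :=
      (Finset.finite_toSet _).subset fun x hx => hx.1
    rw [hset, Set.ncard_union_eq ?_ ?_ hfin, ups, h1]
    · congr 1
      by_cases hb : ω ∈ B n
      · rw [if_pos hb]
        have : ({x | x = n ∧ ω ∈ B x} : Set ℕ) = {n} := by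
          ext x
          simp only [mem_ofPred_eq, mem_singleton_iff, and_iff_left_iff_imp]
          rintro rfl
          exact hb
        rw [this, Set.ncard_singleton]
      · rw [if_neg hb]
        have : ({x | x = n ∧ ω ∈ B x} : Set ℕ) = ∅ := by
          ext x
          simp only [mem_ofPred_eq, mem_empty_iff_false, iff_false, not_and]
          rintro rfl
          exact hb
        rw [this, Set.ncard_empty]
    · rw [Set.disjoint_left]
      rintro x ⟨rfl, _⟩ ⟨hx, _⟩
      rw [Finset.mem_image] at hx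
      obtain ⟨i, hi, h2⟩ := hx
      rw [Finset.mem_range] at hi
      rw [← Function.iterate_succ_apply] at h2
      exact h (i + 1) (by omega) 0 (by omega) (by rw [Function.iterate_zero, id]; exact h2.symm)
    · exact (Set.finite_singleton n).subset fun x hx => hx.1

end Pool.Agent.N909.CM
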