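import Mathlib
import Pool.Agent.N909.CM.Dev

set_option autoImplicit false
set_option linter.unusedSectionVars false

/-! # Random Collatz maps: clean paths -/

open MeasureTheory Filter Set
open scoped ENNReal Topology

namespace Pool.Agent.N909.CM

open Pool.Agent.R528.RM

lemma stp_true_lim : Tendsto (fun n : ℕ => ((stp true n : ℕ) : ℝ) / n) atTop (𝓝 (3 / 2)) := by
  have h1 : Tendsto (fun n : ℕ => (1 : ℝ) / n) atTop (𝓝 0) := tendsto_one_div_atTop_nhds_zero_nat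
  have h2 : Tendsto (fun n : ℕ => (3 / 2 : ℝ) - 1 / n) atTop (𝓝 (3 / 2 - 0)) := h1.const_sub _
  have h3 : Tendsto (fun n : ℕ => (3 / 2 : ℝ) + 1 / n) atTop (𝓝 (3 / 2 + 0)) := h1.const_add _
  rw [sub_zero] at h2
  rw [add_zero] at h3
  refine tendsto_of_tendsto_of_tendsto_of_le_of_le' h2 h3 ?_ ?_
  · filter_upwards [eventually_ge_atTop 1] with n hn
    have hn0 : (0 : ℝ) < n := by exact_mod_cast hn
    have e : (3 * n + 1) / 2 * 2 + 1 ≥ 3 * n + 1 := by omega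
    have e' : ((((3 * n + 1) / 2 : ℕ) : ℝ)) * 2 + 1 ≥ 3 * n + 1 := by exact_mod_cast e
    have e2 : ((stp true n : ℕ) : ℝ) = (((3 * n + 1) / 2 : ℕ) : ℝ) := by simp [stp]
    rw [e2, le_div_iff₀ hn0, sub_mul, one_div, inv_mul_cancel₀ hn0.ne']
    linarith
  · filter_upwards [eventually_ge_atTop 1] with n hn
    have hn0 : (0 : ℝ) < n := by exact_mod_cast hn
    have e : (3 * n + 1) / 2 * 2 ≤ 3 * n + 1 := by omega
    have e' : ((((3 * n + 1) / 2 : ℕ) : ℝ)) * 2 ≤ 3 * n + 1 := by exact_mod_cast e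
    have e2 : ((stp true n : ℕ) : ℝ) = (((3 * n + 1) / 2 : ℕ) : ℝ) := by simp [stp]
    rw [e2, div_le_iff₀ hn0, add_mul, one_div, inv_mul_cancel₀ hn0.ne']
    linarith

lemma stp_false_lim : Tendsto (fun n : ℕ => ((stp false n : ℕ) : ℝ) / n) atTop (𝓝 (1 / 2)) := by
  have h1 : Tendsto (fun n : ℕ => (1 : ℝ) / n) atTop (𝓝 0) := tendsto_one_div_atTop_nhds_zero_nat
  have h2 : Tendsto (fun n : ℕ => (1 / 2 : ℝ) - 1 / n) atTop (𝓝 (1 / 2 - 0)) := h1.const_sub _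
  rw [sub_zero] at h2
  refine tendsto_of_tendsto_of_tendsto_of_le_of_le' h2 tendsto_const_nhds ?_ ?_
  · filter_upwards [eventually_ge_atTop 1] with n hn
    have hn0 : (0 : ℝ) < n := by exact_mod_cast hn
    have e : n / 2 * 2 + 1 ≥ n := by omega
    have e' : (((n / 2 : ℕ) : ℝ)) * 2 + 1 ≥ n := by exact_mod_cast e
    have e2 : ((stp false n : ℕ) : ℝ) = ((n / 2 : ℕ) : ℝ) := by simp [stp]
    rw [e2, le_div_iff₀ hn0, sub_mul, one_div (n : ℝ), inv_mul_cancel₀ hn0.ne']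
    linarith
  · filter_upwards [eventually_ge_atTop 1] with n hn
    have hn0 : (0 : ℝ) < n := by exact_mod_cast hn
    have e : n / 2 * 2 ≤ n := by omega
    have e' : (((n / 2 : ℕ) : ℝ)) * 2 ≤ n := by exact_mod_cast e
    have e2 : ((stp false n : ℕ) : ℝ) = ((n / 2 : ℕ) : ℝ) := by simp [stp]
    rw [e2, div_le_iff₀ hn0]
    linarith

/-- the constants -/
lemma par {θ t r : ℝ} (h : (Real.exp t * (3 / 2 : ℝ) ^ θ + (1 / 2 : ℝ) ^ θ) / 2 < r) :
    ∃ δ : ℝ, 0 < δ ∧ ∃ K₀ : ℕ, ∀ n : ℕ, K₀ < n →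
      (1 / 2 + δ) * (Real.exp t * ((stp true n : ℕ) : ℝ) ^ θ + ((stp false n : ℕ) : ℝ) ^ θ) ≤ r * (n : ℝ) ^ θ := by
  set m : ℝ := (Real.exp t * (3 / 2 : ℝ) ^ θ + (1 / 2 : ℝ) ^ θ) / 2 with hm
  have hm0 : 0 < m := by rw [hm]; positivity
  set η := r - m with hη
  have hη0 : 0 < η := by linarith
  have h1 : Tendsto (fun n : ℕ => Real.exp t * (((stp true n : ℕ) : ℝ) / n) ^ θ + (((stp false n : ℕ) : ℝ) / n) ^ θ)
      atTop (𝓝 (2 * m)) := by
    have h2 := (stp_true_lim.rpow_const (p := θ) (Or.inl (by norm_num))).const_mul (Real.exp t)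
    have h3 := stp_false_lim.rpow_const (p := θ) (Or.inl (by norm_num))
    have h4 := h2.add h3
    have e : Real.exp t * (3 / 2 : ℝ) ^ θ + (1 / 2 : ℝ) ^ θ = 2 * m := by rw [hm]; ring
    rwa [e] at h4
  obtain ⟨K₀, hK₀⟩ := eventually_atTop.1 (h1.eventually (ge_mem_nhds (show 2 * m < 2 * m + η by linarith)))
  refine ⟨η / (2 * (2 * m + η)), by positivity, K₀, fun n hn => ?_⟩
  have h2 := hK₀ n hn.le
  have hn0 : (0 : ℝ) < n := by exact_mod_cast (by omega : 0 < n)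
  have e1 : ((stp true n : ℕ) : ℝ) ^ θ = (((stp true n : ℕ) : ℝ) / n) ^ θ * (n : ℝ) ^ θ := by
    rw [← Real.mul_rpow (by positivity) hn0.le, div_mul_cancel₀ _ hn0.ne']
  have e2 : ((stp false n : ℕ) : ℝ) ^ θ = (((stp false n : ℕ) : ℝ) / n) ^ θ * (n : ℝ) ^ θ := by
    rw [← Real.mul_rpow (by positivity) hn0.le, div_mul_cancel₀ _ hn0.ne']
  rw [e1, e2]
  have h3 : (1 / 2 + η / (2 * (2 * m + η))) *
      (Real.exp t * (((stp true n : ℕ) : ℝ) / n) ^ θ + (((stp false n : ℕ) : ℝ) / n) ^ θ) ≤ r := by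
    calc _ ≤ (1 / 2 + η / (2 * (2 * m + η))) * (2 * m + η) := mul_le_mul_of_nonneg_left h2 (by positivity)
      _ = r := by
        have : 2 * m + η ≠ 0 := by positivity
        field_simp
        rw [hη]
        ring
  calc _ = (1 / 2 + η / (2 * (2 * m + η))) *
      (Real.exp t * (((stp true n : ℕ) : ℝ) / n) ^ θ + (((stp false n : ℕ) : ℝ) / n) ^ θ) * (n : ℝ) ^ θ := by ring
    _ ≤ r * (n : ℝ) ^ θ := mul_le_mul_of_nonneg_right h3 (by positivity)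

/-- the first `k` positions are above `K` and different -/
def Cl (f : ℕ → ℕ) (K k n : ℕ) : Prop := ∀ i < k, K < f^[i] n ∧ ∀ j < i, f^[j] n ≠ f^[i] n

lemma Cl.mono {f : ℕ → ℕ} {K K' k k' n : ℕ} (h : Cl f K k n) (hK : K' ≤ K) (hk : k' ≤ k) : Cl f K' k' n :=
  fun i hi => ⟨lt_of_le_of_lt hK (h i (by omega)).1, (h i (by omega)).2⟩

/-- the first bad time -/
lemma first_bad {f : ℕ → ℕ} {K n : ℕ} (hfin : (orb f n).Finite) (hn : K < n) : ∃ k, Cl f K (k + 1) n ∧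
    orb f n ⊆ (((Finset.range (k + 1)).image (fun i => f^[i] n) : Finset ℕ) : Set ℕ) ∪ ⋃ m ∈ Finset.range (K + 1), orb f m := by
  classical
  have hex : ∃ k, ¬ Cl f K k n := by
    by_contra hcon
    push Not at hcon
    have hinj : Function.Injective (fun i => f^[i] n) := by
      intro i j h
      rcases lt_trichotomy i j with h1 | h1 | h1
      · exact absurd h ((hcon (j + 1) j (by omega)).2 i h1)
      · exact h1
      · exact absurd h.symm ((hcon (i + 1) i (by omega)).2 j h1)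
    exact Set.infinite_range_of_injective hinj hfin
  set k₀ := Nat.find hex with hk₀
  have h1 : ¬ Cl f K k₀ n := Nat.find_spec hex
  have h0 : k₀ ≠ 0 := by
    intro h
    rw [h] at h1
    exact h1 (fun i hi => absurd hi (by omega))
  have h01 : k₀ ≠ 1 := by
    intro h
    rw [h] at h1
    apply h1
    intro i hi
    have : i = 0 := by omega
    subst this
    exact ⟨hn, fun j hj => absurd hj (by omega)⟩
  obtain ⟨k, hk⟩ : ∃ k, k₀ = k + 2 := ⟨k₀ - 2, by omega⟩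
  have h2 : Cl f K (k + 1) n := not_not.1 (Nat.find_min hex (m := k + 1) (by omega))
  refine ⟨k, h2, ?_⟩
  have h3 : f^[k + 1] n ≤ K ∨ ∃ j < k + 1, f^[j] n = f^[k + 1] n := by
    by_contra hcon
    push Not at hcon
    apply h1
    rw [hk]
    intro i hi
    by_cases h : i < k + 1
    · exact h2 i h
    · have : i = k + 1 := by omega
      rw [this]
      exact ⟨hcon.1, hcon.2⟩
  rcases h3 with h3 | ⟨j, hj, h3⟩
  · refine (orb_split n (k + 1)).trans (Set.union_subset_union_right _ ?_)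
    exact Set.subset_biUnion_of_mem (u := fun m => orb f m) (show f^[k + 1] n ∈ (Finset.range (K + 1)) from
      Finset.mem_range.2 (by omega))
  · exact (orb_period hj h3).trans Set.subset_union_left

variable {Ω : Type} {m0 : MeasurableSpace Ω} {μ : Measure Ω} [IsProbabilityMeasure μ]
  {ℱ : Filtration ℕ m0} {B : ℕ → Set Ω}

/-- the probability bound for all lengths -/
lemma dev_prob (hB : ∀ n, MeasurableSet[ℱ n] (B n)) {θ t r δ : ℝ} (hr0 : 0 < r) (hδ : 0 < δ) {K : ℕ}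
    (hM : ∀ n : ℕ, K < n →
      (1 / 2 + δ) * (Real.exp t * ((stp true n : ℕ) : ℝ) ^ θ + ((stp false n : ℕ) : ℝ) ^ θ) ≤ r * (n : ℝ) ^ θ)
    (L : ℕ) (Y : ℕ → ℝ) (hY : ∀ k, 0 < Y k) (n : ℕ) :
    μ.real (⋃ k ∈ Finset.range (L + 1), {ω | Good2 B (VC μ ℱ B δ) K θ t (Y k) ω k ∅ n 1}) ≤
      ∑ k ∈ Finset.range (L + 1), r ^ k * ((n : ℝ) ^ θ / Y k) := by
  refine (measureReal_biUnion_finset_le _ _).trans (Finset.sum_le_sum fun k _ => ?_)
  have h1 := good2_start (μ := μ) hB (V := VC μ ℱ B δ) (fun n => VC_meas δ n) (q := 1 / 2 + δ) (by positivity)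
    (fun n ω h => VC_bd n ω h) (θ := θ) (t := t) (M := r / (1 / 2 + δ)) (by positivity) (K := K) (fun n hn => by
      rw [div_mul_eq_mul_div, le_div_iff₀ (by positivity), mul_comm]
      exact hM n hn) (hY k) k n
  rwa [mul_div_cancel₀ _ (by positivity : (1 / 2 + δ) ≠ 0)] at h1

/-- a clean path of the random map -/
lemma cl_good2 {V : ℕ → Set Ω} {K : ℕ} {ω : Ω} (hV : ∀ x, K < x → ω ∉ V (x - 1)) {θ t Y : ℝ} {k n : ℕ}
    (h : Cl (T B ω) K k n) (hY : Y ≤ Real.exp (t * ups B ω k n) * (((T B ω)^[k] n : ℕ) : ℝ) ^ θ) :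
    Good2 B V K θ t Y ω k ∅ n 1 :=
  good2_of V K θ t Y ω k ∅ n 1 (fun i hi => ⟨(h i hi).1, by simp, hV _ (h i hi).1, (h i hi).2⟩) (by rwa [one_mul])

/-- **deviations, all large starting points** -/
theorem dev_ev (hB : ∀ n, MeasurableSet[ℱ n] (B n))
    (hd : ∀ᵐ ω ∂μ, Tendsto (fun n : ℕ => dens μ ℱ B n ω) atTop (𝓝 (1 / 2))) {θ t r : ℝ} (hr0 : 0 < r)
    (hr : (Real.exp t * (3 / 2 : ℝ) ^ θ + (1 / 2 : ℝ) ^ θ) / 2 < r)
    (L : ℕ → ℕ) (Y : ℕ → ℕ → ℝ) (hY : ∀ n k, 0 < Y n k) {g : ℕ → ℝ} (hg : Summable g)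
    (hle : ∀ᶠ n : ℕ in atTop, ∑ k ∈ Finset.range (L n + 1), r ^ k * ((n : ℝ) ^ θ / Y n k) ≤ g n) :
    ∀ᵐ ω ∂μ, ∃ K₁ : ℕ, ∀ᶠ n : ℕ in atTop, ∀ k ≤ L n, Cl (T B ω) K₁ k n →
      Real.exp (t * ups B ω k n) * (((T B ω)^[k] n : ℕ) : ℝ) ^ θ < Y n k := by
  obtain ⟨δ, hδ, K₀, hK₀⟩ := par hr
  have h1 : ∀ᵐ ω ∂μ, ∀ K : ℕ, K₀ ≤ K →
      ∀ᶠ n : ℕ in atTop, ω ∉ (⋃ k ∈ Finset.range (L n + 1), {ω | Good2 B (VC μ ℱ B δ) K θ t (Y n k) ω k ∅ n 1}) := by
    rw [ae_all_iff]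
    intro K
    by_cases hK : K₀ ≤ K
    · have hbc := bc_real (μ := μ) (s := fun n : ℕ => ⋃ k ∈ Finset.range (L n + 1),
        {ω | Good2 B (VC μ ℱ B δ) K θ t (Y n k) ω k ∅ n 1}) hg (by
          filter_upwards [hle] with n hn
          exact (dev_prob (μ := μ) (ℱ := ℱ) hB hr0 hδ (fun n hn => hK₀ n (by omega)) (L n) (Y n) (hY n) n).trans hn)
      filter_upwards [hbc] with ω hω _
      exact hω
    · exact Eventually.of_forall fun ω h => absurd h hK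
  filter_upwards [h1, hd] with ω h2 h3
  obtain ⟨n₀, hn₀⟩ := no_VC h3 hδ
  refine ⟨max K₀ (n₀ + 1), ?_⟩
  filter_upwards [h2 _ (le_max_left K₀ (n₀ + 1))] with n hn k hk hcl
  by_contra hcon
  apply hn
  rw [mem_iUnion₂]
  exact ⟨k, Finset.mem_range.2 (by omega), cl_good2 (fun x hx => hn₀ _ (by
    have := (le_max_right K₀ (n₀ + 1)).trans_lt hx
    omega)) hcl (not_lt.1 hcon)⟩

end Pool.Agent.N909.CM
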