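import Mathlib
import Pool.Agent.N909.CM.Gen

set_option autoImplicit false
set_option linter.unusedSectionVars false

/-! # Random Collatz maps: the number of steps of the map `n ↦ 3n+1`, `n ↦ n/2` -/

open MeasureTheory Filter Set
open scoped ENNReal Topology

namespace Pool.Agent.N909.CM

open Pool.Agent.R528.RM

variable {Ω : Type} {m0 : MeasurableSpace Ω} {μ : Measure Ω} [IsProbabilityMeasure μ]
  {ℱ : Filtration ℕ m0} {B : ℕ → Set Ω}

/-- the number of steps up on the whole trajectory of `n` -/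
noncomputable def hgt (B : ℕ → Set Ω) (ω : Ω) (n : ℕ) : ℕ := ({x | x ∈ orb (T B ω) n ∧ ω ∈ B x} : Set ℕ).ncard

/-- the trajectory after the first bad time, in numbers -/
lemma count_bad {ω : Ω} (hfin : ∀ n, (orb (T B ω) n).Finite) (K : ℕ) : ∃ C : ℕ, ∀ n, K < n → ∃ k,
    Cl (T B ω) K (k + 1) n ∧ (orb (T B ω) n).ncard ≤ k + 1 + C ∧ hgt B ω n ≤ ups B ω (k + 1) n + C ∧
      ups B ω (k + 1) n ≤ hgt B ω n := by
  classical
  set R : Set ℕ := ⋃ m ∈ Finset.range (K + 1), orb (T B ω) m with hR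
  have hRf : R.Finite := by
    rw [hR]
    exact Set.Finite.biUnion (Finset.finite_toSet _) fun m _ => hfin m
  refine ⟨R.ncard, fun n hn => ?_⟩
  obtain ⟨k, h1, h2⟩ := first_bad (hfin n) hn
  refine ⟨k, h1, ?_, ?_, ?_⟩
  · have h3 := Set.ncard_le_ncard h2 ((Finset.finite_toSet _).union hRf)
    have h4 := Set.ncard_union_le ((((Finset.range (k + 1)).image (fun j => (T B ω)^[j] n) : Finset ℕ)) : Set ℕ) R
    rw [Set.ncard_coe_finset] at h4
    have h5 : ((Finset.range (k + 1)).image (fun j => (T B ω)^[j] n)).card ≤ k + 1 := Finset.card_image_le.trans (by simp)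
    exact h3.trans (h4.trans (by omega))
  · rw [ups_card ω (k + 1) n (fun i hi => (h1 i hi).2)]
    have h6 : ({x | x ∈ orb (T B ω) n ∧ ω ∈ B x} : Set ℕ) ⊆
        ({x | x ∈ ((Finset.range (k + 1)).image (fun i => (T B ω)^[i] n) : Finset ℕ) ∧ ω ∈ B x} : Set ℕ) ∪ R := by
      rintro x ⟨hx, hb⟩
      rcases h2 hx with h | h
      · left; exact ⟨h, hb⟩
      · right; exact h
    have hf1 : ({x | x ∈ ((Finset.range (k + 1)).image (fun i => (T B ω)^[i] n) : Finset ℕ) ∧ ω ∈ B x} : Set ℕ).Finite :=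
      (Finset.finite_toSet _).subset fun x hx => hx.1
    exact (Set.ncard_le_ncard h6 (hf1.union hRf)).trans (Set.ncard_union_le _ _)
  · rw [ups_card ω (k + 1) n (fun i hi => (h1 i hi).2)]
    apply Set.ncard_le_ncard _ ((hfin n).subset fun x hx => hx.1)
    rintro x ⟨hx, hb⟩
    refine ⟨?_, hb⟩
    rw [Finset.mem_image] at hx
    obtain ⟨i, _, h⟩ := hx
    exact ⟨i, h⟩

/-- **the number of steps, steps up counted twice** -/
theorem csteps (hB : ∀ n, MeasurableSet[ℱ n] (B n))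
    (hd : ∀ᵐ ω ∂μ, Tendsto (fun n : ℕ => dens μ ℱ B n ω) atTop (𝓝 (1 / 2))) {θ t γ : ℝ} (hθ : 0 < θ) (ht : 0 < t)
    (h : (Real.exp t * (3 / 2 : ℝ) ^ θ + (1 / 2 : ℝ) ^ θ) / 2 < Real.exp (-t)) (hγ : 1 + θ < γ * t) :
    ∀ᵐ ω ∂μ, ∀ᶠ n : ℕ in atTop, (((orb (T B ω) n).ncard + hgt B ω n : ℕ) : ℝ) ≤ γ * Real.log n := by
  have hγ0 : 0 < γ := by
    by_contra hcon
    push Not at hcon
    nlinarith
  obtain ⟨γ', hγ1, hγ2⟩ : ∃ γ', 1 + θ < γ' * t ∧ γ' < γ := by
    obtain ⟨γ', h1, h2⟩ := exists_between (show (1 + θ) / t < γ by rwa [div_lt_iff₀ ht])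
    exact ⟨γ', by rwa [div_lt_iff₀ ht] at h1, h2⟩
  have hγ'0 : 0 < γ' := by
    by_contra hcon
    push Not at hcon
    nlinarith
  set L : ℕ → ℕ := fun n => ⌊γ' * Real.log n⌋₊ + 1 with hL
  set a : ℝ := γ' * t - θ with ha
  have ha1 : 1 < a := by rw [ha]; linarith
  obtain ⟨b, hb1, hb2⟩ := exists_between ha1
  -- the estimate
  have hev := dev_ev (μ := μ) (ℱ := ℱ) (B := B) hB hd (θ := θ) (t := t) (r := Real.exp (-t)) (Real.exp_pos _) h L
    (fun n k => Real.exp (t * (γ' * Real.log n - k))) (fun n k => Real.exp_pos _)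
    (g := fun n : ℕ => 1 / (n : ℝ) ^ b) (Real.summable_one_div_nat_rpow.2 hb1) (by
      have hlog : Tendsto (fun n : ℕ => Real.log n) atTop atTop := Real.tendsto_log_atTop.comp tendsto_natCast_atTop_atTop
      have hlo : (fun x : ℝ => Real.log x) =o[atTop] (fun x : ℝ => x ^ (a - b)) := isLittleO_log_rpow_atTop (by linarith)
      have hlo2 := (hlo.comp_tendsto tendsto_natCast_atTop_atTop).bound (show (0 : ℝ) < 1 / (γ' + 2) by positivity)
      filter_upwards [eventually_ge_atTop 1, hlog.eventually_ge_atTop 1, hlo2] with n hn hn1 hn2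
      have hn0 : (0 : ℝ) < n := by exact_mod_cast hn
      have e1 : ∀ k : ℕ, Real.exp (-t) ^ k * ((n : ℝ) ^ θ / Real.exp (t * (γ' * Real.log n - k))) = 1 / (n : ℝ) ^ a := by
        intro k
        rw [← Real.exp_nat_mul, one_div, ← Real.rpow_neg hn0.le, Real.rpow_def_of_pos hn0, Real.rpow_def_of_pos hn0,
          ← Real.exp_sub, ← Real.exp_add]
        congr 1
        rw [ha]
        ring
      rw [Finset.sum_congr rfl (fun k _ => e1 k), Finset.sum_const, Finset.card_range, nsmul_eq_mul]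
      simp only [Function.comp_apply, Real.norm_eq_abs] at hn2
      rw [abs_of_nonneg (by linarith), abs_of_nonneg (by positivity), div_mul_eq_mul_div, one_mul,
        le_div_iff₀ (by positivity)] at hn2
      have h3 : ((L n + 1 : ℕ) : ℝ) ≤ (γ' + 2) * Real.log n := by
        have h4 : (⌊γ' * Real.log n⌋₊ : ℝ) ≤ γ' * Real.log n := Nat.floor_le (by positivity)
        simp only [hL]
        push_cast
        linarith
      have h5 : ((L n + 1 : ℕ) : ℝ) ≤ (n : ℝ) ^ (a - b) := by linarith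
      calc ((L n + 1 : ℕ) : ℝ) * (1 / (n : ℝ) ^ a) ≤ (n : ℝ) ^ (a - b) * (1 / (n : ℝ) ^ a) :=
            mul_le_mul_of_nonneg_right h5 (by positivity)
        _ = 1 / (n : ℝ) ^ b := by
          rw [one_div, one_div, ← Real.rpow_neg hn0.le, ← Real.rpow_neg hn0.le, ← Real.rpow_add hn0]
          congr 1
          ring)
  filter_upwards [hev, all_finite (μ := μ) (ℱ := ℱ) hB hd] with ω h1 hfin
  obtain ⟨K₁, hK₁⟩ := h1
  obtain ⟨C, hC⟩ := count_bad hfin K₁
  have hlog : Tendsto (fun n : ℕ => Real.log n) atTop atTop := Real.tendsto_log_atTop.comp tendsto_natCast_atTop_atTop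
  filter_upwards [hK₁, eventually_gt_atTop K₁, hlog.eventually_ge_atTop ((2 * C + 2) / (γ - γ')),
    hlog.eventually_ge_atTop 0] with n h2 hn h3 h4
  obtain ⟨k, g1, g2, g3, -⟩ := hC n hn
  have hX : ∀ i, i < k + 1 → (1 : ℝ) ≤ (((T B ω)^[i] n : ℕ) : ℝ) ^ θ := by
    intro i hi
    apply Real.one_le_rpow _ hθ.le
    have := (g1 i hi).1
    exact_mod_cast (by omega : 1 ≤ (T B ω)^[i] n)
  have hkL : k ≤ L n := by
    by_contra hcon
    push Not at hcon
    have h5 := h2 (L n) le_rfl (g1.mono le_rfl (by omega))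
    have h6 := hX (L n) (by omega)
    have h7 : (1 : ℝ) ≤ Real.exp (t * ups B ω (L n) n) := Real.one_le_exp (by positivity)
    have h8 : Real.exp (t * (γ' * Real.log n - (L n : ℕ))) ≤ 1 := by
      apply Real.exp_le_one_iff.2
      have : γ' * Real.log n < (L n : ℕ) := by
        simp only [hL]
        push_cast
        exact Nat.lt_floor_add_one _
      nlinarith
    nlinarith
  have h5 := h2 k hkL (g1.mono le_rfl (by omega))
  have h6 := hX k (by omega)
  have h7 : Real.exp (t * ups B ω k n) < Real.exp (t * (γ' * Real.log n - k)) := by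
    have := Real.exp_pos (t * (ups B ω k n : ℝ))
    nlinarith
  have h8 : (ups B ω k n : ℝ) < γ' * Real.log n - k := by
    have := Real.exp_lt_exp.1 h7
    exact lt_of_mul_lt_mul_left this ht.le
  have h9 : ups B ω (k + 1) n ≤ ups B ω k n + 1 := by
    rw [ups_card ω (k + 1) n (fun i hi => (g1 i hi).2), ups_card ω k n (fun i hi => (g1 i (by omega)).2)]
    have hsub : ({x | x ∈ ((Finset.range (k + 1)).image (fun i => (T B ω)^[i] n) : Finset ℕ) ∧ ω ∈ B x} : Set ℕ) ⊆
        insert ((T B ω)^[k] n) ({x | x ∈ ((Finset.range k).image (fun i => (T B ω)^[i] n) : Finset ℕ) ∧ ω ∈ B x} : Set ℕ) := by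
      rintro x ⟨hx, hb⟩
      rw [Finset.mem_image] at hx
      obtain ⟨i, hi, h⟩ := hx
      rw [Finset.mem_range] at hi
      by_cases hik : i = k
      · left; rw [← h, hik]
      · right
        exact ⟨Finset.mem_image.2 ⟨i, Finset.mem_range.2 (by omega), h⟩, hb⟩
    have hf1 : ({x | x ∈ ((Finset.range k).image (fun i => (T B ω)^[i] n) : Finset ℕ) ∧ ω ∈ B x} : Set ℕ).Finite :=
      (Finset.finite_toSet _).subset fun x hx => hx.1
    exact (Set.ncard_le_ncard hsub (hf1.insert _)).trans (Set.ncard_insert_le _ _)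
  rw [div_le_iff₀ (by linarith)] at h3
  have h10 : (((orb (T B ω) n).ncard + hgt B ω n : ℕ) : ℝ) ≤ (k + 1 + C + (ups B ω k n + 1 + C) : ℕ) := by
    exact_mod_cast (by omega)
  push_cast at h10 ⊢
  linarith

end Pool.Agent.N909.CM
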