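import Mathlib

set_option autoImplicit false

open MeasureTheory Filter Set
open scoped ENNReal Topology

namespace Pool.Agent.N909.CMT

/-- rare events have density zero -/
theorem density_zero {Ω : Type} {m0 : MeasurableSpace Ω} {μ : Measure Ω} [IsProbabilityMeasure μ] (E : ℕ → Set Ω)
    {c C : ℝ} (hc : 0 < c) (hE : ∀ᶠ n : ℕ in atTop, μ.real (E n) ≤ C * (n : ℝ) ^ (-c)) :
    ∀ᵐ ω ∂μ, open Classical in
      Tendsto (fun x : ℕ => (((Finset.Icc 1 x).filter (fun n => ω ∈ E n)).card : ℝ) / x) atTop (𝓝 0) := by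
  classical
  set F : ℕ → Set Ω := fun n => toMeasurable μ (E n) with hF
  have hFm : ∀ n, MeasurableSet (F n) := fun n => measurableSet_toMeasurable _ _
  have hFE : ∀ n, E n ⊆ F n := fun n => subset_toMeasurable _ _
  have hFμ : ∀ n, μ (F n) = μ (E n) := fun n => measure_toMeasurable _
  set g : ℕ → Ω → ℝ≥0∞ := fun n ω => (F n).indicator (fun _ => ENNReal.ofReal (1 / n)) ω with hg
  have hgm : ∀ n, Measurable (g n) := fun n => measurable_const.indicator (hFm n)
  have hint : ∀ n, ∫⁻ ω, g n ω ∂μ = ENNReal.ofReal (1 / n * μ.real (E n)) := by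
    intro n
    simp only [hg]
    rw [lintegral_indicator (hFm n), lintegral_const, Measure.restrict_apply MeasurableSet.univ, univ_inter, hFμ,
      ENNReal.ofReal_mul (by positivity), ofReal_measureReal]
  have hs : Summable (fun n : ℕ => 1 / (n : ℝ) * μ.real (E n)) := by
    have h1 : Summable (fun n : ℕ => C * (1 / (n : ℝ) ^ (1 + c))) := (Real.summable_one_div_nat_rpow.2 (by linarith)).mul_left C
    refine Summable.of_norm_bounded_eventually_nat h1 ?_
    filter_upwards [hE, eventually_ge_atTop 1] with n hn hn1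
    have hn0 : (0 : ℝ) < n := by exact_mod_cast hn1
    rw [Real.norm_eq_abs, abs_of_nonneg (by positivity)]
    calc 1 / (n : ℝ) * μ.real (E n) ≤ 1 / (n : ℝ) * (C * (n : ℝ) ^ (-c)) := mul_le_mul_of_nonneg_left hn (by positivity)
      _ = C * (1 / (n : ℝ) ^ (1 + c)) := by
        rw [Real.rpow_add hn0, Real.rpow_one, Real.rpow_neg hn0.le]
        field_simp
  have hfin : ∫⁻ ω, ∑' n, g n ω ∂μ ≠ ∞ := by
    rw [lintegral_tsum fun n => (hgm n).aemeasurable]
    simp only [hint]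
    rw [← ENNReal.ofReal_tsum_of_nonneg (fun n => by positivity) hs]
    exact ENNReal.ofReal_ne_top
  have hae := ae_lt_top (Measurable.ennreal_tsum hgm) hfin
  filter_upwards [hae] with ω hω
  set u : ℕ → ℝ := fun n => (F n).indicator (fun _ => (1 / (n : ℝ))) ω with hu
  have hu0 : ∀ n, 0 ≤ u n := fun n => by
    simp only [hu]
    exact Set.indicator_nonneg (fun _ _ => by positivity) _
  have hgu : ∀ n, g n ω = ENNReal.ofReal (u n) := by
    intro n
    simp only [hg, hu]
    by_cases h : ω ∈ F n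
    · rw [Set.indicator_of_mem h, Set.indicator_of_mem h]
    · rw [Set.indicator_of_notMem h, Set.indicator_of_notMem h, ENNReal.ofReal_zero]
  have hus : Summable u := by
    have h1 : ∑' n, ENNReal.ofReal (u n) ≠ ∞ := by
      simp only [← hgu]
      exact hω.ne
    have h2 := ENNReal.summable_toReal h1
    refine h2.congr fun n => ?_
    rw [ENNReal.toReal_ofReal (hu0 n)]
  rw [Metric.tendsto_atTop]
  intro ε hε
  -- the tail
  have htail := tendsto_tsum_compl_atTop_zero u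
  obtain ⟨M, hM⟩ : ∃ M : ℕ, ∀ N : ℕ, ∑ n ∈ Finset.Ico M N, u n ≤ ε / 4 := by
    have h1 := hus.hasSum.tendsto_sum_nat
    have h2 := (Metric.tendsto_atTop.1 h1) (ε / 8) (by positivity)
    obtain ⟨M, hM⟩ := h2
    refine ⟨M, fun N => ?_⟩
    by_cases hN : M ≤ N
    · rw [Finset.sum_Ico_eq_sub _ hN]
      have h3 := hM M le_rfl
      have h4 := hM N hN
      rw [Real.dist_eq, abs_lt] at h3 h4
      linarith [h3.1, h3.2, h4.1, h4.2]
    · rw [Finset.Ico_eq_empty (by omega), Finset.sum_empty]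
      positivity
  have hlim : Tendsto (fun x : ℕ => (M : ℝ) / x) atTop (𝓝 0) := tendsto_const_div_atTop_nhds_zero_nat _
  obtain ⟨N₁, hN₁⟩ := (Metric.tendsto_atTop.1 hlim) (ε / 4) (by positivity)
  refine ⟨max N₁ 1, fun x hx => ?_⟩
  have hx1 : 1 ≤ x := le_trans (le_max_right _ _) hx
  have hx0 : (0 : ℝ) < x := by exact_mod_cast hx1
  have h5 := hN₁ x (le_trans (le_max_left _ _) hx)
  rw [Real.dist_eq, sub_zero, abs_of_nonneg (by positivity)] at h5 ⊢
  -- the count
  have h6 : ((((Finset.Icc 1 x).filter (fun n => ω ∈ E n)).card : ℝ)) ≤ M + x * ∑ n ∈ Finset.Ico M (x + 1), u n := by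
    have h7 : ((Finset.Icc 1 x).filter (fun n => ω ∈ E n)) ⊆ Finset.range M ∪ ((Finset.Ico M (x + 1)).filter (fun n => 1 ≤ n ∧ ω ∈ E n)) := by
      intro n hn
      simp only [Finset.mem_filter, Finset.mem_Icc, Finset.mem_union, Finset.mem_range, Finset.mem_Ico] at hn ⊢
      by_cases h : n < M
      · left; exact h
      · right; exact ⟨⟨by omega, by omega⟩, hn.1.1, hn.2⟩
    have h8 := (Finset.card_le_card h7).trans (Finset.card_union_le _ _)
    rw [Finset.card_range] at h8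
    have h9 : (((Finset.Ico M (x + 1)).filter (fun n => 1 ≤ n ∧ ω ∈ E n)).card : ℝ) ≤ x * ∑ n ∈ Finset.Ico M (x + 1), u n := by
      rw [Finset.card_eq_sum_ones, Nat.cast_sum, Finset.mul_sum, Finset.sum_filter]
      refine Finset.sum_le_sum fun n hn => ?_
      rw [Finset.mem_Ico] at hn
      split_ifs with h
      · have hnF : ω ∈ F n := hFE n h.2
        have hn0 : (0 : ℝ) < n := by exact_mod_cast h.1
        simp only [hu]
        rw [Set.indicator_of_mem hnF, mul_one_div, le_div_iff₀ hn0]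
        push_cast
        rw [one_mul]
        exact_mod_cast (by omega : n ≤ x)
      · exact mul_nonneg hx0.le (hu0 n)
    have h10 : ((((Finset.Icc 1 x).filter (fun n => ω ∈ E n)).card : ℝ)) ≤
        ((M + ((Finset.Ico M (x + 1)).filter (fun n => 1 ≤ n ∧ ω ∈ E n)).card : ℕ) : ℝ) := by exact_mod_cast h8
    push_cast at h10
    linarith
  have h11 := hM (x + 1)
  rw [div_lt_iff₀ hx0]
  rw [div_lt_iff₀ hx0] at h5
  nlinarith

/-- from the values outside density zero sets to the average -/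
theorem average (h : ℕ → ℝ) (S : Set ℕ) {c γ : ℝ} (hc : 0 ≤ c) (h0 : ∀ n, 0 ≤ h n)
    (hS : open Classical in Tendsto (fun x : ℕ => (((Finset.Icc 1 x).filter (· ∈ S)).card : ℝ) / x) atTop (𝓝 (1/2)))
    (hγ : ∀ᶠ n : ℕ in atTop, h n ≤ γ * Real.log n)
    (hE : ∀ ε : ℝ, 0 < ε → ∃ E : Set ℕ,
      (open Classical in Tendsto (fun x : ℕ => (((Finset.Icc 1 x).filter (· ∈ E)).card : ℝ) / x) atTop (𝓝 0)) ∧
      ∀ᶠ n : ℕ in atTop, n ∉ E → |h n - c * Real.log n| ≤ ε * Real.log n) :
    open Classical in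
      Tendsto (fun x : ℕ => 2 / (x : ℝ) * (∑ m ∈ (Finset.Icc 1 x).filter (· ∈ S), h m) / Real.log x) atTop (𝓝 c) := by
  classical
  set γ' : ℝ := max γ 0 with hγ'
  have hγ'0 : 0 ≤ γ' := le_max_right _ _
  have hlog : Tendsto (fun n : ℕ => Real.log n) atTop atTop := Real.tendsto_log_atTop.comp tendsto_natCast_atTop_atTop
  rw [Metric.tendsto_nhds]
  intro ε₀ hε₀
  -- a small parameter
  set ε : ℝ := min (ε₀ / (16 * (c + γ' + 2))) (1 / 2) with hεd
  have hε : 0 < ε := lt_min (by positivity) (by norm_num)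
  have hε1 : ε ≤ 1 / 2 := min_le_right _ _
  have hε2 : ε * (16 * (c + γ' + 2)) ≤ ε₀ := by
    have := min_le_left (ε₀ / (16 * (c + γ' + 2))) (1 / 2)
    rwa [← le_div_iff₀ (by positivity)]
  obtain ⟨E, hE0, hE1⟩ := hE ε hε
  obtain ⟨M, hM⟩ := eventually_atTop.1 ((hγ.and hE1).and (eventually_ge_atTop 1))
  set C₀ : ℝ := ∑ m ∈ Finset.range M, h m with hC₀
  have hC₀0 : 0 ≤ C₀ := Finset.sum_nonneg fun m _ => h0 m
  have hlim1 : Tendsto (fun x : ℕ => C₀ / (x : ℝ)) atTop (𝓝 0) := tendsto_const_div_atTop_nhds_zero_nat _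
  have hlim2 : Tendsto (fun x : ℕ => ((M : ℝ) + 1) / (x : ℝ)) atTop (𝓝 0) := tendsto_const_div_atTop_nhds_zero_nat _
  have hlim3 : Tendsto (fun x : ℕ => (-Real.log ε) / Real.log x) atTop (𝓝 0) := Tendsto.const_div_atTop hlog _
  filter_upwards [(Metric.tendsto_nhds.1 hS) ε hε, (Metric.tendsto_nhds.1 hE0) ε hε, (Metric.tendsto_nhds.1 hlim1) ε hε,
    (Metric.tendsto_nhds.1 hlim2) ε hε, (Metric.tendsto_nhds.1 hlim3) ε hε, hlog.eventually_ge_atTop 1,
    eventually_ge_atTop 1] with x a1 a2 a3 a4 a5 a6 a7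
  have hx : (0 : ℝ) < x := by exact_mod_cast a7
  set l : ℝ := Real.log x with hl
  have hl0 : 0 < l := by linarith
  set s : ℝ := (((Finset.Icc 1 x).filter (· ∈ S)).card : ℝ) / x with hs
  set e : ℝ := (((Finset.Icc 1 x).filter (· ∈ E)).card : ℝ) / x with he
  have hs0 : 0 ≤ s := by positivity
  have he0 : 0 ≤ e := by positivity
  rw [Real.dist_eq, abs_lt] at a1
  rw [Real.dist_eq, sub_zero, abs_of_nonneg he0] at a2
  rw [Real.dist_eq, sub_zero, abs_of_nonneg (by positivity)] at a3 a4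
  rw [Real.dist_eq, sub_zero] at a5
  have a5' := (abs_lt.1 a5).2
  rw [div_lt_iff₀ hl0] at a5'
  -- upper bound
  have hup : ∑ m ∈ (Finset.Icc 1 x).filter (· ∈ S), h m ≤
      C₀ + ((Finset.Icc 1 x).filter (· ∈ S)).card * ((c + ε) * l) + ((Finset.Icc 1 x).filter (· ∈ E)).card * (γ' * l) := by
    have h1 : ∀ m ∈ (Finset.Icc 1 x).filter (· ∈ S), h m ≤
        (if m < M then h m else 0) + (c + ε) * l + (if m ∈ E then γ' * l else 0) := by
      intro m hm
      rw [Finset.mem_filter, Finset.mem_Icc] at hm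
      by_cases hmM : m < M
      · rw [if_pos hmM]
        have h2 : 0 ≤ (c + ε) * l := by positivity
        have h3 : 0 ≤ (if m ∈ E then γ' * l else 0) := by split_ifs <;> positivity
        linarith
      · rw [if_neg hmM, zero_add]
        obtain ⟨⟨b1, b2⟩, b3⟩ := hM m (by omega)
        have b4 : Real.log m ≤ l := Real.log_le_log (by exact_mod_cast b3) (by exact_mod_cast hm.1.2)
        have b5 : 0 ≤ Real.log m := Real.log_nonneg (by exact_mod_cast b3)
        by_cases hmE : m ∈ E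
        · rw [if_pos hmE]
          have h2 : 0 ≤ (c + ε) * l := by positivity
          have h3 : h m ≤ γ' * l := by
            calc h m ≤ γ * Real.log m := b1
              _ ≤ γ' * Real.log m := mul_le_mul_of_nonneg_right (le_max_left _ _) b5
              _ ≤ γ' * l := mul_le_mul_of_nonneg_left b4 hγ'0
          linarith
        · rw [if_neg hmE, add_zero]
          have b6 := (abs_le.1 (b2 hmE)).2
          calc h m ≤ (c + ε) * Real.log m := by linarith
            _ ≤ (c + ε) * l := mul_le_mul_of_nonneg_left b4 (by positivity)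
    refine (Finset.sum_le_sum h1).trans ?_
    rw [Finset.sum_add_distrib, Finset.sum_add_distrib, Finset.sum_const, nsmul_eq_mul]
    have h2 : ∑ m ∈ (Finset.Icc 1 x).filter (· ∈ S), (if m < M then h m else 0) ≤ C₀ := by
      rw [← Finset.sum_filter, hC₀]
      apply Finset.sum_le_sum_of_subset_of_nonneg
      · intro m hm
        simp only [Finset.mem_filter, Finset.mem_range] at hm ⊢
        exact hm.2
      · intro m _ _
        exact h0 m
    have h3 : ∑ m ∈ (Finset.Icc 1 x).filter (· ∈ S), (if m ∈ E then γ' * l else 0) ≤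
        ((Finset.Icc 1 x).filter (· ∈ E)).card * (γ' * l) := by
      rw [← Finset.sum_filter, Finset.sum_const, nsmul_eq_mul]
      apply mul_le_mul_of_nonneg_right _ (by positivity)
      apply Nat.cast_le.2
      apply Finset.card_le_card
      intro m hm
      simp only [Finset.mem_filter] at hm ⊢
      exact ⟨hm.1.1, hm.2⟩
    linarith
  -- lower bound
  have hlow : (((Finset.Icc 1 x).filter (· ∈ S)).card : ℝ) * ((c - ε) * (l + Real.log ε)) -
      (((Finset.Icc 1 x).filter (· ∈ E)).card + ε * x + M + 1) * (c * l) ≤ ∑ m ∈ (Finset.Icc 1 x).filter (· ∈ S), h m := by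
    have hlε : Real.log ε ≤ 0 := Real.log_nonpos hε.le (by linarith)
    have h1 : ∀ m ∈ (Finset.Icc 1 x).filter (· ∈ S), (c - ε) * (l + Real.log ε) -
        (if m ∈ E then c * l else 0) - (if m < ⌊ε * x⌋₊ + 1 + M then c * l else 0) ≤ h m := by
      intro m hm
      rw [Finset.mem_filter, Finset.mem_Icc] at hm
      have h2 : (c - ε) * (l + Real.log ε) ≤ c * l := by
        have hz : 0 ≤ l + Real.log ε := by nlinarith
        nlinarith
      have h4 : 0 ≤ (if m ∈ E then c * l else 0) := by split_ifs <;> positivity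
      have h5 : 0 ≤ (if m < ⌊ε * x⌋₊ + 1 + M then c * l else 0) := by split_ifs <;> positivity
      have h6 := h0 m
      by_cases hmE : m ∈ E
      · rw [if_pos hmE]
        linarith
      · rw [if_neg hmE]
        by_cases hm2 : m < ⌊ε * x⌋₊ + 1 + M
        · rw [if_pos hm2]
          linarith
        · rw [if_neg hm2]
          obtain ⟨⟨b1, b2⟩, b3⟩ := hM m (by omega)
          have b6 := (abs_le.1 (b2 hmE)).1
          have b7 : ε * x ≤ m := by
            refine (Nat.lt_floor_add_one _).le.trans ?_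
            exact_mod_cast (by omega : ⌊ε * x⌋₊ + 1 ≤ m)
          have b8 : l + Real.log ε ≤ Real.log m := by
            rw [hl, add_comm, ← Real.log_mul hε.ne' hx.ne']
            exact Real.log_le_log (by positivity) b7
          have b9 : 0 ≤ l + Real.log ε := by nlinarith
          by_cases hcε : 0 ≤ c - ε
          · have : (c - ε) * (l + Real.log ε) ≤ (c - ε) * Real.log m := mul_le_mul_of_nonneg_left b8 hcε
            linarith
          · have : (c - ε) * (l + Real.log ε) ≤ 0 := mul_nonpos_of_nonpos_of_nonneg (by linarith) b9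
            linarith
    refine le_trans ?_ (Finset.sum_le_sum h1)
    rw [Finset.sum_sub_distrib, Finset.sum_sub_distrib, Finset.sum_const, nsmul_eq_mul]
    have h3 : ∑ m ∈ (Finset.Icc 1 x).filter (· ∈ S), (if m ∈ E then c * l else 0) ≤
        ((Finset.Icc 1 x).filter (· ∈ E)).card * (c * l) := by
      rw [← Finset.sum_filter, Finset.sum_const, nsmul_eq_mul]
      apply mul_le_mul_of_nonneg_right _ (by positivity)
      apply Nat.cast_le.2
      apply Finset.card_le_card
      intro m hm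
      simp only [Finset.mem_filter] at hm ⊢
      exact ⟨hm.1.1, hm.2⟩
    have h4 : ∑ m ∈ (Finset.Icc 1 x).filter (· ∈ S), (if m < ⌊ε * x⌋₊ + 1 + M then c * l else 0) ≤
        (ε * x + M + 1) * (c * l) := by
      rw [← Finset.sum_filter, Finset.sum_const, nsmul_eq_mul]
      apply mul_le_mul_of_nonneg_right _ (by positivity)
      have h5 : (((Finset.Icc 1 x).filter (· ∈ S)).filter (fun m => m < ⌊ε * x⌋₊ + 1 + M)).card ≤ ⌊ε * x⌋₊ + 1 + M := by
        calc _ ≤ (Finset.range (⌊ε * x⌋₊ + 1 + M)).card := by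
              apply Finset.card_le_card
              intro m hm
              simp only [Finset.mem_filter, Finset.mem_range] at hm ⊢
              exact hm.2
          _ = _ := Finset.card_range _
      have h6 : (⌊ε * x⌋₊ : ℝ) ≤ ε * x := Nat.floor_le (by positivity)
      have h7 : ((((Finset.Icc 1 x).filter (· ∈ S)).filter (fun m => m < ⌊ε * x⌋₊ + 1 + M)).card : ℝ) ≤ ⌊ε * x⌋₊ + 1 + M := by
        exact_mod_cast h5
      linarith
    have h5 : ((((Finset.Icc 1 x).filter (· ∈ E)).card : ℝ) + ε * x + M + 1) * (c * l) =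
        (((Finset.Icc 1 x).filter (· ∈ E)).card : ℝ) * (c * l) + (ε * x + M + 1) * (c * l) := by ring
    rw [h5]
    linarith
  -- division
  set W : ℝ := ∑ m ∈ (Finset.Icc 1 x).filter (· ∈ S), h m with hW
  have q1 : W / x / l ≤ ε + s * (c + ε) + ε * γ' := by
    have e1 : W / x ≤ C₀ / x + s * ((c + ε) * l) + e * (γ' * l) := by
      rw [div_le_iff₀ hx]
      refine hup.trans (le_of_eq ?_)
      rw [hs, he]
      field_simp
    rw [div_le_iff₀ hl0]
    have e2 : C₀ / x ≤ ε * l := by nlinarith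
    have e3 : e * (γ' * l) ≤ ε * (γ' * l) := mul_le_mul_of_nonneg_right a2.le (by positivity)
    nlinarith
  have q2 : s * ((c - ε) * (1 + Real.log ε / l)) - (e + ε + (M + 1) / x) * c ≤ W / x / l := by
    rw [le_div_iff₀ hl0, le_div_iff₀ hx]
    refine le_trans (le_of_eq ?_) hlow
    rw [hs, he]
    field_simp
    ring
  have q5 : -ε ≤ Real.log ε / l := by
    rw [le_div_iff₀ hl0]
    linarith
  have q7 : Real.log ε / l ≤ 0 := div_nonpos_of_nonpos_of_nonneg (Real.log_nonpos hε.le (by linarith)) hl0.le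
  have q8 : 0 ≤ W / x / l := by
    have : 0 ≤ W := Finset.sum_nonneg fun m _ => h0 m
    positivity
  rw [Real.dist_eq]
  have q6 : 2 / (x : ℝ) * W / l = 2 * (W / x / l) := by ring
  rw [q6, abs_lt]
  set V : ℝ := W / x / l with hV
  constructor
  · by_cases hcε : 0 ≤ c - ε
    · have r1 : (1 / 2 - ε) * ((c - ε) * (1 - ε)) ≤ s * ((c - ε) * (1 + Real.log ε / l)) := by
        apply mul_le_mul (by linarith [a1.1]) _ (mul_nonneg hcε (by linarith)) hs0
        exact mul_le_mul_of_nonneg_left (by linarith) hcε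
      have r2 : (e + ε + (M + 1) / x) * c ≤ (3 * ε) * c := mul_le_mul_of_nonneg_right (by linarith) hc
      nlinarith [mul_nonneg hε.le hc, mul_nonneg hε.le hγ'0, mul_nonneg hε.le hε.le,
        mul_nonneg (mul_nonneg hε.le hε.le) hc, mul_nonneg (mul_nonneg hε.le hε.le) hε.le]
    · nlinarith [mul_nonneg hε.le hc, mul_nonneg hε.le hγ'0]
  · have r1 : s * (c + ε) ≤ (1 / 2 + ε) * (c + ε) := mul_le_mul_of_nonneg_right (by linarith [a1.2]) (by positivity)
    nlinarith [mul_nonneg hε.le hc, mul_nonneg hε.le hγ'0, mul_nonneg hε.le hε.le]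

/-! ### Small exponents -/

lemma exp_small {A D : ℝ} (h : A + D < 0) : ∃ s : ℝ, 0 < s ∧ (Real.exp (s * A) + Real.exp (s * D)) / 2 < 1 := by
  set s : ℝ := min (1 / (|A| + |D| + 1)) (-(A + D) / (A ^ 2 + D ^ 2 + 1)) / 2 with hs
  have h1 : 0 < 1 / (|A| + |D| + 1) := by positivity
  have h2 : 0 < -(A + D) / (A ^ 2 + D ^ 2 + 1) := div_pos (by linarith) (by positivity)
  have hm : 0 < min (1 / (|A| + |D| + 1)) (-(A + D) / (A ^ 2 + D ^ 2 + 1)) := lt_min h1 h2
  have hs0 : 0 < s := by rw [hs]; linarith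
  have hs1 : s * (|A| + |D| + 1) ≤ 1 := by
    rw [← le_div_iff₀ (by positivity)]
    have := min_le_left (1 / (|A| + |D| + 1)) (-(A + D) / (A ^ 2 + D ^ 2 + 1))
    rw [hs]; linarith
  have hs2 : s * (A ^ 2 + D ^ 2 + 1) < -(A + D) := by
    rw [← lt_div_iff₀ (by positivity)]
    have := min_le_right (1 / (|A| + |D| + 1)) (-(A + D) / (A ^ 2 + D ^ 2 + 1))
    rw [hs]; linarith
  have hA : |s * A| ≤ 1 := by
    rw [abs_mul, abs_of_pos hs0]
    nlinarith [abs_nonneg A, abs_nonneg D]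
  have hD : |s * D| ≤ 1 := by
    rw [abs_mul, abs_of_pos hs0]
    nlinarith [abs_nonneg A, abs_nonneg D]
  have h3 := (abs_le.1 (Real.abs_exp_sub_one_sub_id_le hA)).2
  have h4 := (abs_le.1 (Real.abs_exp_sub_one_sub_id_le hD)).2
  refine ⟨s, hs0, ?_⟩
  have h5 : (s * A) ^ 2 + (s * D) ^ 2 < -(s * A + s * D) := by
    have : s * (s * (A ^ 2 + D ^ 2 + 1)) < s * (-(A + D)) := mul_lt_mul_of_pos_left hs2 hs0
    nlinarith [mul_pos hs0 hs0]
  linarith

theorem small_pos (κ : ℝ) (hκ : 1 / Real.log (4/3) < κ) :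
    ∃ s : ℝ, 0 < s ∧ (Real.exp s * (3/2 : ℝ) ^ (κ * s) + (1/2 : ℝ) ^ (κ * s)) / 2 < 1 := by
  have hl : 0 < Real.log (4 / 3) := Real.log_pos (by norm_num)
  have h43 : Real.log (3 / 2) + Real.log (1 / 2) = -Real.log (4 / 3) := by
    rw [← Real.log_mul (by norm_num) (by norm_num), ← Real.log_inv]
    norm_num
  have hk : 1 < κ * Real.log (4 / 3) := by rwa [div_lt_iff₀ hl] at hκ
  obtain ⟨s, hs, h⟩ := exp_small (A := 1 + κ * Real.log (3 / 2)) (D := κ * Real.log (1 / 2)) (by
    have : κ * Real.log (3 / 2) + κ * Real.log (1 / 2) = -(κ * Real.log (4 / 3)) := by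
      rw [← mul_add, h43]
      ring
    linarith)
  refine ⟨s, hs, lt_of_eq_of_lt ?_ h⟩
  rw [Real.rpow_def_of_pos (by norm_num), Real.rpow_def_of_pos (by norm_num), ← Real.exp_add]
  congr 3 <;> ring

theorem small_neg (κ : ℝ) (_hκ0 : 0 < κ) (hκ : κ < 1 / Real.log (4/3)) :
    ∃ s : ℝ, 0 < s ∧ (Real.exp (-s) * (3/2 : ℝ) ^ (-(κ * s)) + (1/2 : ℝ) ^ (-(κ * s))) / 2 < 1 := by
  have hl : 0 < Real.log (4 / 3) := Real.log_pos (by norm_num)
  have h43 : Real.log (3 / 2) + Real.log (1 / 2) = -Real.log (4 / 3) := by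
    rw [← Real.log_mul (by norm_num) (by norm_num), ← Real.log_inv]
    norm_num
  have hk : κ * Real.log (4 / 3) < 1 := by rwa [lt_div_iff₀ hl] at hκ
  obtain ⟨s, hs, h⟩ := exp_small (A := -(1 + κ * Real.log (3 / 2))) (D := -(κ * Real.log (1 / 2))) (by
    have : κ * Real.log (3 / 2) + κ * Real.log (1 / 2) = -(κ * Real.log (4 / 3)) := by
      rw [← mul_add, h43]
      ring
    linarith)
  refine ⟨s, hs, lt_of_eq_of_lt ?_ h⟩
  rw [Real.rpow_def_of_pos (by norm_num), Real.rpow_def_of_pos (by norm_num), ← Real.exp_add]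
  congr 3 <;> ring

/-! ### Loops -/

lemma path_bd (f : ℕ → ℕ) (hf : ∀ n, f n = (3 * n + 1) / 2 ∨ f n = n / 2) {H : ℕ} (hH : 1 ≤ H) (k x : ℕ)
    (h : ∀ i < k, H < f^[i] x) : ∃ u ≤ k, (3 : ℝ) ^ u * x * (1 - 1 / H) ^ k ≤ 2 ^ k * (f^[k] x : ℕ) ∧
      2 ^ k * ((f^[k] x : ℕ) : ℝ) ≤ (3 : ℝ) ^ u * x * (1 + 1 / (3 * H)) ^ k := by
  have hH0 : (1 : ℝ) ≤ H := by exact_mod_cast hH
  have ha : (0 : ℝ) ≤ 1 - 1 / H := by
    rw [sub_nonneg, div_le_one (by linarith)]
    exact hH0
  have ha1 : (1 : ℝ) - 1 / H ≤ 1 := by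
    have : (0 : ℝ) ≤ 1 / H := by positivity
    linarith
  have hb1 : (1 : ℝ) ≤ 1 + 1 / (3 * H) := by
    have : (0 : ℝ) ≤ 1 / (3 * H) := by positivity
    linarith
  induction k with
  | zero => exact ⟨0, le_rfl, by simp, by simp⟩
  | succ k ih =>
    obtain ⟨u, hu, h1, h2⟩ := ih (fun i hi => h i (by omega))
    have hy := h k (by omega)
    rw [Function.iterate_succ_apply']
    set y : ℕ := f^[k] x with hyd
    have hyr : (H : ℝ) < y := by exact_mod_cast hy
    have hy0 : (0 : ℝ) < y := by linarith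
    have hyH : (1 : ℝ) ≤ y * (1 / H) := by
      rw [mul_one_div, le_div_iff₀ (by linarith)]
      linarith
    have hp : (0 : ℝ) < 2 ^ k := by positivity
    have hA : (0 : ℝ) ≤ 3 ^ u * x * (1 - 1 / H) ^ k := by positivity
    rcases hf y with hfy | hfy
    · refine ⟨u + 1, by omega, ?_, ?_⟩
      · have h3 : 3 * y ≤ 2 * f y := by omega
        have h4 : (3 : ℝ) * y ≤ 2 * (f y : ℕ) := by exact_mod_cast h3
        calc (3 : ℝ) ^ (u + 1) * x * (1 - 1 / H) ^ (k + 1) = 3 * ((3 ^ u * x * (1 - 1 / H) ^ k) * (1 - 1 / H)) := by ring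
          _ ≤ 3 * ((3 ^ u * x * (1 - 1 / H) ^ k) * 1) := by
            apply mul_le_mul_of_nonneg_left _ (by norm_num)
            exact mul_le_mul_of_nonneg_left ha1 hA
          _ ≤ 3 * (2 ^ k * y) := by linarith
          _ = 2 ^ k * (3 * y) := by ring
          _ ≤ 2 ^ k * (2 * (f y : ℕ)) := mul_le_mul_of_nonneg_left h4 hp.le
          _ = _ := by ring
      · have h3 : 2 * f y ≤ 3 * y + 1 := by omega
        have h4 : (2 : ℝ) * (f y : ℕ) ≤ 3 * y + 1 := by exact_mod_cast h3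
        have h5 : (3 : ℝ) * y + 1 ≤ 3 * y * (1 + 1 / (3 * H)) := by
          have e : (3 : ℝ) * y * (1 + 1 / (3 * H)) = 3 * y + y * (1 / H) := by field_simp
          rw [e]; linarith
        calc (2 : ℝ) ^ (k + 1) * (f y : ℕ) = 2 ^ k * (2 * (f y : ℕ)) := by ring
          _ ≤ 2 ^ k * (3 * y * (1 + 1 / (3 * H))) := mul_le_mul_of_nonneg_left (h4.trans h5) hp.le
          _ = 3 * (2 ^ k * y) * (1 + 1 / (3 * H)) := by ring
          _ ≤ 3 * (3 ^ u * x * (1 + 1 / (3 * H)) ^ k) * (1 + 1 / (3 * H)) := by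
            apply mul_le_mul_of_nonneg_right _ (by linarith)
            linarith
          _ = _ := by ring
    · refine ⟨u, by omega, ?_, ?_⟩
      · have h3 : y ≤ 2 * f y + 1 := by omega
        have h4 : (y : ℝ) ≤ 2 * (f y : ℕ) + 1 := by exact_mod_cast h3
        have h5 : (y : ℝ) * (1 - 1 / H) ≤ 2 * (f y : ℕ) := by
          have e : (y : ℝ) * (1 - 1 / H) = y - y * (1 / H) := by ring
          rw [e]; linarith
        calc (3 : ℝ) ^ u * x * (1 - 1 / H) ^ (k + 1) = (3 ^ u * x * (1 - 1 / H) ^ k) * (1 - 1 / H) := by ring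
          _ ≤ (2 ^ k * y) * (1 - 1 / H) := mul_le_mul_of_nonneg_right h1 ha
          _ = 2 ^ k * (y * (1 - 1 / H)) := by ring
          _ ≤ 2 ^ k * (2 * (f y : ℕ)) := mul_le_mul_of_nonneg_left h5 hp.le
          _ = _ := by ring
      · have h3 : 2 * f y ≤ y := by omega
        have h4 : (2 : ℝ) * (f y : ℕ) ≤ y := by exact_mod_cast h3
        have hB : (0 : ℝ) ≤ 3 ^ u * x * (1 + 1 / (3 * H)) ^ k := by positivity
        calc (2 : ℝ) ^ (k + 1) * (f y : ℕ) = 2 ^ k * (2 * (f y : ℕ)) := by ring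
          _ ≤ 2 ^ k * y := mul_le_mul_of_nonneg_left h4 hp.le
          _ ≤ 3 ^ u * x * (1 + 1 / (3 * H)) ^ k := h2
          _ = 3 ^ u * x * (1 + 1 / (3 * H)) ^ k * 1 := (mul_one _).symm
          _ ≤ 3 ^ u * x * (1 + 1 / (3 * H)) ^ k * (1 + 1 / (3 * H)) := mul_le_mul_of_nonneg_left hb1 hB
          _ = _ := by ring

/-- loops high above are long -/
theorem no_return (f : ℕ → ℕ) (hf : ∀ n, f n = (3 * n + 1) / 2 ∨ f n = n / 2) {H l x : ℕ} (hl : 1 ≤ l)
    (h : ∀ i < l, H < f^[i] x) (hret : f^[l] x = x) : H ≤ 2 * l * 3 ^ l := by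
  have h3l : 1 ≤ 3 ^ l := Nat.one_le_pow _ _ (by norm_num)
  by_cases hHl : H ≤ l
  · nlinarith
  push Not at hHl
  have hH : 1 ≤ H := by omega
  obtain ⟨u, hu, h1, h2⟩ := path_bd f hf hH l x h
  rw [hret] at h1 h2
  have hH0 : (0 : ℝ) < H := by exact_mod_cast (by omega : 0 < H)
  have hlH : (l : ℝ) < H := by exact_mod_cast hHl
  have hx : (0 : ℝ) < x := by
    have := h 0 (by omega)
    rw [Function.iterate_zero, id] at this
    exact_mod_cast (by omega : 0 < x)
  have h1' : (3 : ℝ) ^ u * (1 - 1 / H) ^ l ≤ 2 ^ l := by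
    have : (3 : ℝ) ^ u * (1 - 1 / H) ^ l * x ≤ 2 ^ l * x := by linarith
    exact le_of_mul_le_mul_right this hx
  have h2' : (2 : ℝ) ^ l ≤ 3 ^ u * (1 + 1 / (3 * H)) ^ l := by
    have : (2 : ℝ) ^ l * x ≤ 3 ^ u * (1 + 1 / (3 * H)) ^ l * x := by linarith
    exact le_of_mul_le_mul_right this hx
  have hber : 1 - (l : ℝ) / H ≤ (1 - 1 / H) ^ l := by
    have h5 := one_add_mul_le_pow (a := -(1 / (H : ℝ))) (by
      have : 1 / (H : ℝ) ≤ 1 := by
        rw [div_le_one hH0]
        exact_mod_cast hH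
      linarith) l
    have e : 1 + (l : ℝ) * -(1 / (H : ℝ)) = 1 - l / H := by ring
    rw [e] at h5
    rwa [← sub_eq_add_neg] at h5
  have hexp : (1 + 1 / (3 * (H : ℝ))) ^ l ≤ 1 + l / H := by
    have h5 : (1 + 1 / (3 * (H : ℝ))) ^ l ≤ Real.exp (l / (3 * H)) := by
      calc (1 + 1 / (3 * (H : ℝ))) ^ l ≤ Real.exp (1 / (3 * H)) ^ l := by
            apply pow_le_pow_left₀ (by positivity)
            have := Real.add_one_le_exp (1 / (3 * (H : ℝ)))
            linarith
        _ = Real.exp (l * (1 / (3 * H))) := (Real.exp_nat_mul _ _).symm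
        _ = _ := by congr 1; ring
    have h6 : (l : ℝ) / (3 * H) ≤ 1 / 3 := by
      rw [div_le_div_iff₀ (by positivity) (by norm_num)]
      linarith
    have h60 : 0 ≤ (l : ℝ) / (3 * H) := by positivity
    have h7 := (abs_le.1 (Real.abs_exp_sub_one_sub_id_le (x := (l : ℝ) / (3 * H)) (by
      rw [abs_of_nonneg h60]; linarith))).2
    have h8 : (l : ℝ) / H = 3 * (l / (3 * H)) := by field_simp
    rw [h8]
    nlinarith
  have h3u : (0 : ℝ) < 3 ^ u := by positivity
  -- the difference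
  have hdiff : |(2 : ℝ) ^ l - 3 ^ u| ≤ 3 ^ u * (l / H) := by
    rw [abs_le]
    constructor
    · nlinarith [mul_le_mul_of_nonneg_left hber h3u.le]
    · nlinarith [mul_le_mul_of_nonneg_left hexp h3u.le]
  have hne : (2 : ℤ) ^ l ≠ 3 ^ u := by
    intro he
    have h9 : Even ((2 : ℤ) ^ l) := (Int.even_pow' (by omega)).2 even_two
    rw [he] at h9
    have h10 : Odd ((3 : ℤ) ^ u) := Odd.pow (by decide)
    exact (Int.not_even_iff_odd.2 h10) h9
  have hone : (1 : ℝ) ≤ |(2 : ℝ) ^ l - 3 ^ u| := by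
    have h9 : 1 ≤ |(2 : ℤ) ^ l - 3 ^ u| := Int.one_le_abs (sub_ne_zero.2 hne)
    exact_mod_cast h9
  have h11 : (1 : ℝ) ≤ 3 ^ u * (l / H) := hone.trans hdiff
  have h12 : (H : ℝ) ≤ 3 ^ u * l := by
    rw [mul_div_assoc', le_div_iff₀ hH0, one_mul] at h11
    exact h11
  have h13 : H ≤ 3 ^ u * l := by exact_mod_cast h12
  have h14 : 3 ^ u ≤ 3 ^ l := Nat.pow_le_pow_right (by norm_num) hu
  nlinarith

end Pool.Agent.N909.CMT
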