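import Mathlib
import Pool.Agent.N909.CM.Cst
import Pool.Agent.N909.CM.Lem

set_option autoImplicit false
set_option linter.unusedSectionVars false

/-! # Random Collatz maps: the height of almost all integers -/

open MeasureTheory Filter Set
open scoped ENNReal Topology

namespace Pool.Agent.N909.CM

open Pool.Agent.R528.RM Pool.Agent.N909.CMT

/-- density zero -/
def DZ (E : Set ℕ) : Prop := Tendsto (fun x : ℕ => ((Set.Icc 1 x ∩ E).ncard : ℝ) / x) atTop (𝓝 0)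

lemma DZ_iff (p : ℕ → Prop) [DecidablePred p] :
    DZ {n | p n} ↔ Tendsto (fun x : ℕ => (((Finset.Icc 1 x).filter p).card : ℝ) / x) atTop (𝓝 0) := by
  have h : ∀ x : ℕ, (Set.Icc 1 x ∩ {n | p n}).ncard = ((Finset.Icc 1 x).filter p).card := by
    intro x
    rw [← Set.ncard_coe_finset]
    congr 1
    ext n
    simp
  unfold DZ
  simp only [h]

lemma DZ.mono {E F : Set ℕ} (hE : DZ E) (h : F ⊆ E) : DZ F := by
  unfold DZ at *
  refine squeeze_zero (fun x => by positivity) (fun x => ?_) hE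
  apply div_le_div_of_nonneg_right _ (Nat.cast_nonneg _)
  apply Nat.cast_le.2
  exact Set.ncard_le_ncard (Set.inter_subset_inter_right _ h) ((Set.finite_Icc 1 x).inter_of_left _)

lemma DZ.union {E F : Set ℕ} (hE : DZ E) (hF : DZ F) : DZ (E ∪ F) := by
  unfold DZ at *
  have h := hE.add hF
  rw [add_zero] at h
  refine squeeze_zero (fun x => by positivity) (fun x => ?_) h
  rw [← add_div]
  apply div_le_div_of_nonneg_right _ (Nat.cast_nonneg _)
  rw [← Nat.cast_add]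
  apply Nat.cast_le.2
  rw [Set.inter_union_distrib_left]
  exact Set.ncard_union_le _ _

lemma ups_succ_le {Ω : Type} {B : ℕ → Set Ω} (ω : Ω) (k : ℕ) : ∀ n, ups B ω (k + 1) n ≤ ups B ω k n + 1 := by
  classical
  induction k with
  | zero =>
    intro n
    simp only [ups]
    split_ifs <;> omega
  | succ k ih =>
    intro n
    have := ih (T B ω n)
    rw [ups]
    conv_rhs => rw [ups]
    omega

variable {Ω : Type} {m0 : MeasurableSpace Ω} {μ : Measure Ω} [IsProbabilityMeasure μ]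
  {ℱ : Filtration ℕ m0} {B : ℕ → Set Ω}

/-- **deviations, almost all starting points** -/
theorem dev_dens (hB : ∀ n, MeasurableSet[ℱ n] (B n))
    (hd : ∀ᵐ ω ∂μ, Tendsto (fun n : ℕ => dens μ ℱ B n ω) atTop (𝓝 (1 / 2))) {θ t r : ℝ} (hr0 : 0 < r)
    (hr : (Real.exp t * (3 / 2 : ℝ) ^ θ + (1 / 2 : ℝ) ^ θ) / 2 < r)
    (L : ℕ → ℕ) (Y : ℕ → ℕ → ℝ) (hY : ∀ n k, 0 < Y n k) {C c : ℝ} (hc : 0 < c)
    (hle : ∀ᶠ n : ℕ in atTop, ∑ k ∈ Finset.range (L n + 1), r ^ k * ((n : ℝ) ^ θ / Y n k) ≤ C * (n : ℝ) ^ (-c)) :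
    ∀ᵐ ω ∂μ, ∃ K₁ : ℕ, DZ {n : ℕ | ∃ k ≤ L n, Cl (T B ω) K₁ k n ∧
      Y n k ≤ Real.exp (t * ups B ω k n) * (((T B ω)^[k] n : ℕ) : ℝ) ^ θ} := by
  classical
  obtain ⟨δ, hδ, K₀, hK₀⟩ := par hr
  have h1 : ∀ᵐ ω ∂μ, ∀ K : ℕ, K₀ ≤ K →
      DZ {n : ℕ | ω ∈ (⋃ k ∈ Finset.range (L n + 1), {ω | Good2 B (VC μ ℱ B δ) K θ t (Y n k) ω k ∅ n 1})} := by
    rw [ae_all_iff]
    intro K
    by_cases hK : K₀ ≤ K
    · have hbc := density_zero (μ := μ) (E := fun n : ℕ => ⋃ k ∈ Finset.range (L n + 1),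
        {ω | Good2 B (VC μ ℱ B δ) K θ t (Y n k) ω k ∅ n 1}) hc (C := C) (by
          filter_upwards [hle] with n hn
          exact (dev_prob (μ := μ) (ℱ := ℱ) hB hr0 hδ (fun n hn => hK₀ n (by omega)) (L n) (Y n) (hY n) n).trans hn)
      filter_upwards [hbc] with ω hω _
      exact (DZ_iff _).2 hω
    · exact Eventually.of_forall fun ω h => absurd h hK
  filter_upwards [h1, hd] with ω h2 h3
  obtain ⟨n₀, hn₀⟩ := no_VC h3 hδ
  refine ⟨max K₀ (n₀ + 1), ?_⟩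
  refine (h2 _ (le_max_left K₀ (n₀ + 1))).mono ?_
  rintro n ⟨k, hk, hcl, hY2⟩
  simp only [mem_ofPred_eq, mem_iUnion₂]
  exact ⟨k, Finset.mem_range.2 (by omega), cl_good2 (fun x hx => hn₀ _ (by
    have := (le_max_right K₀ (n₀ + 1)).trans_lt hx
    omega)) hcl hY2⟩

lemma geom_le {r : ℝ} (hr0 : 0 < r) (hr1 : r < 1) (N : ℕ) : ∑ k ∈ Finset.range N, r ^ k ≤ (1 - r)⁻¹ := by
  rw [← tsum_geometric_of_lt_one hr0.le hr1]
  exact Summable.sum_le_tsum _ (fun _ _ => by positivity) (summable_geometric_of_lt_one hr0.le hr1)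

/-- few integers have many steps up -/
theorem up_dens (hB : ∀ n, MeasurableSet[ℱ n] (B n))
    (hd : ∀ᵐ ω ∂μ, Tendsto (fun n : ℕ => dens μ ℱ B n ω) atTop (𝓝 (1 / 2))) (L : ℕ → ℕ) {κ : ℝ}
    (hκ : 1 / Real.log (4 / 3) < κ) :
    ∀ᵐ ω ∂μ, ∃ K₁ : ℕ, ∃ E : Set ℕ, DZ E ∧ ∀ᶠ n : ℕ in atTop, n ∉ E → ∀ k ≤ L n, Cl (T B ω) K₁ (k + 1) n →
      (ups B ω k n : ℝ) < κ * Real.log n := by
  have hl0 : 0 < Real.log (4 / 3) := Real.log_pos (by norm_num)
  obtain ⟨κ', h1, h2⟩ := exists_between hκ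
  have hκ'0 : 0 < κ' := lt_trans (by positivity) h1
  obtain ⟨s, hs, hs2⟩ := small_pos κ' h1
  obtain ⟨r, hr, hr1⟩ := exists_between hs2
  have hr0 : 0 < r := lt_trans (by positivity) hr
  have h3 := dev_dens (μ := μ) (ℱ := ℱ) (B := B) hB hd (θ := κ' * s) (t := s) hr0 hr L
    (fun n _ => Real.exp (s * (κ * Real.log n))) (fun n _ => Real.exp_pos _) (C := (1 - r)⁻¹) (c := s * (κ - κ'))
    (mul_pos hs (by linarith)) (by
      filter_upwards [eventually_ge_atTop 1] with n hn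
      have hn0 : (0 : ℝ) < n := by exact_mod_cast hn
      have e1 : (n : ℝ) ^ (κ' * s) / Real.exp (s * (κ * Real.log n)) = (n : ℝ) ^ (-(s * (κ - κ'))) := by
        rw [Real.rpow_def_of_pos hn0, Real.rpow_def_of_pos hn0, ← Real.exp_sub]
        congr 1
        ring
      rw [← Finset.sum_mul, e1]
      exact mul_le_mul_of_nonneg_right (geom_le hr0 hr1 _) (by positivity))
  filter_upwards [h3] with ω hω
  obtain ⟨K₁, hK₁⟩ := hω
  refine ⟨K₁, _, hK₁, ?_⟩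
  filter_upwards [eventually_ge_atTop 1] with n hn hnE k hk hcl
  have h4 := not_le.1 (fun h => hnE ⟨k, hk, hcl.mono le_rfl (by omega), h⟩)
  have hX : (1 : ℝ) ≤ (((T B ω)^[k] n : ℕ) : ℝ) ^ (κ' * s) := by
    apply Real.one_le_rpow _ (by positivity)
    have := (hcl k (by omega)).1
    exact_mod_cast (by omega : 1 ≤ (T B ω)^[k] n)
  have h5 : Real.exp (s * ups B ω k n) < Real.exp (s * (κ * Real.log n)) := by
    have := Real.exp_pos (s * (ups B ω k n : ℝ))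
    nlinarith
  exact lt_of_mul_lt_mul_left (Real.exp_lt_exp.1 h5) hs.le

/-- few integers have few steps up -/
theorem low_dens (hB : ∀ n, MeasurableSet[ℱ n] (B n))
    (hd : ∀ᵐ ω ∂μ, Tendsto (fun n : ℕ => dens μ ℱ B n ω) atTop (𝓝 (1 / 2))) (L : ℕ → ℕ) {κ κ' η : ℝ}
    (hκ'0 : 0 < κ') (hκ' : κ' < 1 / Real.log (4 / 3)) (hη : κ < κ' * (1 - η)) :
    ∀ᵐ ω ∂μ, ∃ K₁ : ℕ, ∃ E : Set ℕ, DZ E ∧ ∀ᶠ n : ℕ in atTop, n ∉ E → ∀ k ≤ L n, Cl (T B ω) K₁ k n →
      1 ≤ (T B ω)^[k] n → (((T B ω)^[k] n : ℕ) : ℝ) ≤ (n : ℝ) ^ η → κ * Real.log n < (ups B ω k n : ℝ) := by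
  obtain ⟨s, hs, hs2⟩ := small_neg κ' hκ'0 hκ'
  obtain ⟨r, hr, hr1⟩ := exists_between hs2
  have hr0 : 0 < r := lt_trans (by positivity) hr
  have h3 := dev_dens (μ := μ) (ℱ := ℱ) (B := B) hB hd (θ := -(κ' * s)) (t := -s) hr0 hr L
    (fun n _ => Real.exp (-(s * (κ * Real.log n)) - η * Real.log n * (κ' * s))) (fun n _ => Real.exp_pos _)
    (C := (1 - r)⁻¹) (c := s * (κ' * (1 - η) - κ))
    (mul_pos hs (by linarith)) (by
      filter_upwards [eventually_ge_atTop 1] with n hn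
      have hn0 : (0 : ℝ) < n := by exact_mod_cast hn
      have e1 : (n : ℝ) ^ (-(κ' * s)) / Real.exp (-(s * (κ * Real.log n)) - η * Real.log n * (κ' * s)) =
          (n : ℝ) ^ (-(s * (κ' * (1 - η) - κ))) := by
        rw [Real.rpow_def_of_pos hn0, Real.rpow_def_of_pos hn0, ← Real.exp_sub]
        congr 1
        ring
      rw [← Finset.sum_mul, e1]
      exact mul_le_mul_of_nonneg_right (geom_le hr0 hr1 _) (by positivity))
  filter_upwards [h3] with ω hω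
  obtain ⟨K₁, hK₁⟩ := hω
  refine ⟨K₁, _, hK₁, ?_⟩
  filter_upwards [eventually_ge_atTop 1] with n hn hnE k hk hcl hX1 hX2
  have h4 := not_le.1 (fun h => hnE ⟨k, hk, hcl, h⟩)
  have hn0 : (0 : ℝ) < n := by exact_mod_cast hn
  have hX0 : (0 : ℝ) < (((T B ω)^[k] n : ℕ) : ℝ) := by exact_mod_cast hX1
  have hX : Real.exp (-(η * Real.log n * (κ' * s))) ≤ (((T B ω)^[k] n : ℕ) : ℝ) ^ (-(κ' * s)) := by
    have h5 : ((n : ℝ) ^ η) ^ (-(κ' * s)) ≤ (((T B ω)^[k] n : ℕ) : ℝ) ^ (-(κ' * s)) :=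
      Real.rpow_le_rpow_of_nonpos hX0 hX2 (by nlinarith)
    refine le_trans (le_of_eq ?_) h5
    rw [← Real.rpow_mul hn0.le, Real.rpow_def_of_pos hn0]
    congr 1
    ring
  have h5 : Real.exp (-s * ups B ω k n) * Real.exp (-(η * Real.log n * (κ' * s))) <
      Real.exp (-(s * (κ * Real.log n)) - η * Real.log n * (κ' * s)) :=
    lt_of_le_of_lt (mul_le_mul_of_nonneg_left hX (Real.exp_pos _).le) h4
  rw [← Real.exp_add] at h5
  have h6 := Real.exp_lt_exp.1 h5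
  have h7 : s * (κ * Real.log n) < s * ups B ω k n := by linarith
  exact lt_of_mul_lt_mul_left h7 hs.le

end Pool.Agent.N909.CM
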