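import Mathlib
import Pool.Agent.N909.CM.Hgt

set_option autoImplicit false
set_option linter.unusedSectionVars false

/-! # Random Collatz maps: early repetitions are rare -/

open MeasureTheory Filter Set
open scoped ENNReal Topology

namespace Pool.Agent.N909.CM

open Pool.Agent.R528.RM Pool.Agent.N909.CMT

variable {Ω : Type} {m0 : MeasurableSpace Ω} {μ : Measure Ω} [IsProbabilityMeasure μ]
  {ℱ : Filtration ℕ m0} {B : ℕ → Set Ω}

lemma log_le_pow {C e : ℝ} (hC : 0 < C) (he : 0 < e) :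
    ∀ᶠ n : ℕ in atTop, C * Real.log n ≤ (n : ℝ) ^ e := by
  have hlo : (fun x : ℝ => Real.log x) =o[atTop] (fun x : ℝ => x ^ e) := isLittleO_log_rpow_atTop he
  have hlo2 := (hlo.comp_tendsto tendsto_natCast_atTop_atTop).bound (show (0 : ℝ) < 1 / C by positivity)
  filter_upwards [eventually_ge_atTop 1, hlo2] with n hn hn2
  have hn0 : (1 : ℝ) ≤ n := by exact_mod_cast hn
  simp only [Function.comp_apply, Real.norm_eq_abs] at hn2
  rw [abs_of_nonneg (Real.log_nonneg hn0), abs_of_nonneg (by positivity), div_mul_eq_mul_div, one_mul,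
    le_div_iff₀ hC] at hn2
  linarith

/-- few integers have an early repetition after a long loop -/
theorem rep_dens (hB : ∀ n, MeasurableSet[ℱ n] (B n))
    (hd : ∀ᵐ ω ∂μ, Tendsto (fun n : ℕ => dens μ ℱ B n ω) atTop (𝓝 (1 / 2))) {γ c₀ : ℝ} (hγ : 0 < γ) (hc₀ : 0 < c₀) :
    ∀ᵐ ω ∂μ, ∃ K₁ : ℕ, ∃ E : Set ℕ, DZ E ∧ ∀ n ∉ E, ∀ j l : ℕ, 1 ≤ l → j + l ≤ ⌊γ * Real.log n⌋₊ →
      c₀ * Real.log n ≤ l → Cl (T B ω) K₁ (j + l) n → (T B ω)^[j] n ≠ (T B ω)^[j + l] n := by
  classical
  have hm := mm_lt (θ := 1 / 2) (by norm_num) (by norm_num)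
  obtain ⟨r, hr, hr1⟩ := exists_between hm
  have hr0 : 0 < r := (mm_pos _).trans hr
  have hlr : 0 < -Real.log r := by
    have := Real.log_neg hr0 hr1
    linarith
  obtain ⟨δ₀, hδ₀, K₀, hK₀⟩ := par (θ := 1 / 2) (t := 0) (r := r) (by
    rw [Real.exp_zero, one_mul]
    exact hr)
  set a : ℝ := c₀ * (-Real.log r) with ha
  have ha0 : 0 < a := by positivity
  set δ := min δ₀ (a / (4 * γ)) with hδd
  have hδ : 0 < δ := lt_min hδ₀ (by positivity)
  have hδ1 : 2 * δ * γ ≤ a / 2 := by
    have := min_le_right δ₀ (a / (4 * γ))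
    have h2 : δ * (4 * γ) ≤ a := by rwa [← le_div_iff₀ (by positivity)]
    nlinarith
  have hM : ∀ n : ℕ, K₀ < n →
      (1 / 2 + δ) * (((stp true n : ℕ) : ℝ) ^ (1 / 2 : ℝ) + ((stp false n : ℕ) : ℝ) ^ (1 / 2 : ℝ)) ≤ r * (n : ℝ) ^ (1 / 2 : ℝ) := by
    intro n hn
    have h1 := hK₀ n hn
    rw [Real.exp_zero, one_mul] at h1
    refine le_trans (mul_le_mul_of_nonneg_right ?_ (by positivity)) h1
    linarith [min_le_left δ₀ (a / (4 * γ))]
  set L : ℕ → ℕ := fun n => ⌊γ * Real.log n⌋₊ with hL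
  set R : ℕ → ℕ → Set Ω := fun K n => ⋃ i ∈ Finset.range (L n + 1), ⋃ l ∈ (Finset.range (L n + 1)).filter (fun l : ℕ => c₀ * Real.log n ≤ l),
    {ω | Pre B (VC μ ℱ B δ) K (1 / 2) l ω i ∅ n} with hR
  have h1 : ∀ᵐ ω ∂μ, ∀ K : ℕ, K₀ ≤ K → DZ {n : ℕ | ω ∈ R K n} := by
    rw [ae_all_iff]
    intro K
    by_cases hK : K₀ ≤ K
    · have hbc := density_zero (μ := μ) (E := R K) (c := a / 4) (C := 1) (by positivity) (by
        filter_upwards [eventually_ge_atTop 1, log_le_pow (C := γ + 1) (e := a / 8) (by positivity) (by positivity),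
          (Real.tendsto_log_atTop.comp tendsto_natCast_atTop_atTop).eventually_ge_atTop 1] with n hn hn1 hn2
        simp only [Function.comp_apply] at hn2
        have hn0 : (0 : ℝ) < n := by exact_mod_cast hn
        have hLn : (L n : ℝ) ≤ γ * Real.log n := Nat.floor_le (by positivity)
        have hbound : ∀ i ∈ Finset.range (L n + 1), ∀ l ∈ (Finset.range (L n + 1)).filter (fun l : ℕ => c₀ * Real.log n ≤ l),
            μ.real {ω | Pre B (VC μ ℱ B δ) K (1 / 2) l ω i ∅ n} ≤ (n : ℝ) ^ (-(a / 2)) := by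
          intro i hi l hl
          rw [Finset.mem_range] at hi
          rw [Finset.mem_filter] at hl
          have h2 := pre_start (μ := μ) hB (V := VC μ ℱ B δ) (fun n => VC_meas δ n) (q := 1 / 2 + δ) (by positivity)
            (fun n ω h => VC_bd n ω h) (θ := 1 / 2) (M := r / (1 / 2 + δ)) (by positivity) (K := K) (fun n hn => by
              rw [div_mul_eq_mul_div, le_div_iff₀ (by positivity), mul_comm]
              exact hM n (by omega)) l i n
          rw [mul_div_cancel₀ _ (by positivity : (1 / 2 + δ) ≠ 0)] at h2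
          refine h2.trans ?_
          have h3 : (2 * (1 / 2 + δ)) ^ i ≤ Real.exp (2 * δ * (γ * Real.log n)) := by
            have h4 : 2 * (1 / 2 + δ) ≤ Real.exp (2 * δ) := by
              have := Real.add_one_le_exp (2 * δ)
              linarith
            calc (2 * (1 / 2 + δ)) ^ i ≤ Real.exp (2 * δ) ^ i := pow_le_pow_left₀ (by positivity) h4 i
              _ = Real.exp (i * (2 * δ)) := (Real.exp_nat_mul _ _).symm
              _ ≤ _ := by
                apply Real.exp_le_exp.2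
                have : (i : ℝ) ≤ γ * Real.log n := by
                  have : (i : ℝ) ≤ L n := by exact_mod_cast (by omega : i ≤ L n)
                  linarith
                nlinarith
          have h5 : r ^ l ≤ Real.exp (-(a * Real.log n)) := by
            have e1 : r ^ l = Real.exp (l * Real.log r) := by
              rw [Real.exp_nat_mul, Real.exp_log hr0]
            rw [e1]
            apply Real.exp_le_exp.2
            rw [ha]
            have := hl.2
            nlinarith
          calc (2 * (1 / 2 + δ)) ^ i * r ^ l ≤ Real.exp (2 * δ * (γ * Real.log n)) * Real.exp (-(a * Real.log n)) :=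
                mul_le_mul h3 h5 (by positivity) (Real.exp_pos _).le
            _ ≤ (n : ℝ) ^ (-(a / 2)) := by
              rw [← Real.exp_add, Real.rpow_def_of_pos hn0]
              apply Real.exp_le_exp.2
              have : 2 * δ * γ * Real.log n ≤ a / 2 * Real.log n := mul_le_mul_of_nonneg_right hδ1 (by linarith)
              nlinarith
        have hcount : ((L n + 1 : ℕ) : ℝ) ≤ (n : ℝ) ^ (a / 8) := by
          push_cast
          linarith
        calc μ.real (R K n) ≤ ∑ i ∈ Finset.range (L n + 1), μ.real (⋃ l ∈ (Finset.range (L n + 1)).filter (fun l : ℕ => c₀ * Real.log n ≤ l),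
              {ω | Pre B (VC μ ℱ B δ) K (1 / 2) l ω i ∅ n}) := measureReal_biUnion_finset_le _ _
          _ ≤ ∑ i ∈ Finset.range (L n + 1), ∑ l ∈ (Finset.range (L n + 1)).filter (fun l : ℕ => c₀ * Real.log n ≤ l),
              μ.real {ω | Pre B (VC μ ℱ B δ) K (1 / 2) l ω i ∅ n} :=
            Finset.sum_le_sum fun i _ => measureReal_biUnion_finset_le _ _
          _ ≤ ∑ i ∈ Finset.range (L n + 1), ∑ l ∈ (Finset.range (L n + 1)).filter (fun l : ℕ => c₀ * Real.log n ≤ l),
              (n : ℝ) ^ (-(a / 2)) := Finset.sum_le_sum fun i hi => Finset.sum_le_sum fun l hl => hbound i hi l hl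
          _ ≤ ((L n + 1 : ℕ) : ℝ) * (((L n + 1 : ℕ) : ℝ) * (n : ℝ) ^ (-(a / 2))) := by
            rw [Finset.sum_const, Finset.sum_const, Finset.card_range, nsmul_eq_mul, nsmul_eq_mul]
            apply mul_le_mul_of_nonneg_left _ (Nat.cast_nonneg _)
            apply mul_le_mul_of_nonneg_right _ (by positivity)
            exact_mod_cast (Finset.card_filter_le _ _).trans (by rw [Finset.card_range])
          _ ≤ (n : ℝ) ^ (a / 8) * ((n : ℝ) ^ (a / 8) * (n : ℝ) ^ (-(a / 2))) := by gcongr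
          _ = 1 * (n : ℝ) ^ (-(a / 4)) := by
            rw [← Real.rpow_add hn0, ← Real.rpow_add hn0, one_mul]
            congr 1
            ring)
      filter_upwards [hbc] with ω hω _
      exact (DZ_iff _).2 hω
    · exact Eventually.of_forall fun ω h => absurd h hK
  filter_upwards [h1, hd] with ω h2 h3
  obtain ⟨n₀, hn₀⟩ := no_VC h3 hδ
  refine ⟨max K₀ (n₀ + 1), _, h2 _ (le_max_left K₀ (n₀ + 1)), ?_⟩
  intro n hnE j l hl hjl hlc hcl he
  apply hnE
  simp only [mem_ofPred_eq, hR, mem_iUnion₂]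
  refine ⟨j, Finset.mem_range.2 (by simp only [hL]; omega), l, Finset.mem_filter.2 ⟨Finset.mem_range.2 (by simp only [hL]; omega), hlc⟩, ?_⟩
  apply pre_of _ _ _ _ _ _ _ _ _ hl he
  intro m hm
  refine ⟨(hcl m hm).1, by simp, hn₀ _ ?_, (hcl m hm).2⟩
  have := (le_max_right K₀ (n₀ + 1)).trans_lt (hcl m hm).1
  omega

/-- the first bad time above a high level -/
lemma first_bad' {f : ℕ → ℕ} {K n : ℕ} (hfin : (orb f n).Finite) (hn : K < n) : ∃ k, Cl f K (k + 1) n ∧
    (f^[k + 1] n ≤ K ∨ ∃ j < k + 1, f^[j] n = f^[k + 1] n) := by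
  classical
  have hex : ∃ k, ¬ Cl f K k n := by
    by_contra hcon
    push Not at hcon
    have hinj : Function.Injective (fun i => f^[i] n) := by
      intro i j h
      rcases lt_trichotomy i j with h1 | h1 | h1
      · exact absurd h ((hcon (j + 1) j (by omega)).2 i h1)
      · exact h1
      · exact absurd h.symm ((hcon (i + 1) i (by omega)).2 j h1)
    exact Set.infinite_range_of_injective hinj hfin
  set k₀ := Nat.find hex with hk₀
  have h1 : ¬ Cl f K k₀ n := Nat.find_spec hex
  have h0 : k₀ ≠ 0 := by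
    intro h
    rw [h] at h1
    exact h1 (fun i hi => absurd hi (by omega))
  have h01 : k₀ ≠ 1 := by
    intro h
    rw [h] at h1
    apply h1
    intro i hi
    have : i = 0 := by omega
    subst this
    exact ⟨hn, fun j hj => absurd hj (by omega)⟩
  obtain ⟨k, hk⟩ : ∃ k, k₀ = k + 2 := ⟨k₀ - 2, by omega⟩
  have h2 : Cl f K (k + 1) n := not_not.1 (Nat.find_min hex (m := k + 1) (by omega))
  refine ⟨k, h2, ?_⟩
  by_contra hcon
  push Not at hcon
  apply h1
  rw [hk]
  intro i hi
  by_cases h : i < k + 1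
  · exact h2 i h
  · have : i = k + 1 := by omega
    rw [this]
    exact ⟨hcon.1, hcon.2⟩

/-- a clean path is at most as long as the trajectory -/
lemma Cl.le_ncard {f : ℕ → ℕ} {K k n : ℕ} (h : Cl f K k n) (hfin : (orb f n).Finite) : k ≤ (orb f n).ncard := by
  classical
  have h1 : (((Finset.range k).image (fun i => f^[i] n) : Finset ℕ) : Set ℕ) ⊆ orb f n := by
    intro x hx
    rw [Finset.mem_coe, Finset.mem_image] at hx
    obtain ⟨i, _, h⟩ := hx
    exact ⟨i, h⟩
  have h2 := Set.ncard_le_ncard h1 hfin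
  rw [Set.ncard_coe_finset, Finset.card_image_of_injOn, Finset.card_range] at h2
  · exact h2
  · intro i hi j hj hij
    simp only [Finset.coe_range, mem_Iio] at hi hj
    rcases lt_trichotomy i j with h1 | h1 | h1
    · exact absurd hij ((h j hj).2 i h1)
    · exact h1
    · exact absurd hij.symm ((h i hi).2 j h1)

/-- loops high above are long -/
lemma loop_long {η : ℝ} (hη : 0 < η) (B : ℕ → Set Ω) : ∀ᶠ n : ℕ in atTop, ∀ (ω : Ω) (x l : ℕ), 1 ≤ l →
    (∀ i < l, ⌊(n : ℝ) ^ η⌋₊ < (T B ω)^[i] x) → (T B ω)^[l] x = x → η / 4 * Real.log n ≤ l := by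
  have hlim : Tendsto (fun n : ℕ => (n : ℝ) ^ (η / 2)) atTop atTop :=
    (tendsto_rpow_atTop (by positivity)).comp tendsto_natCast_atTop_atTop
  filter_upwards [eventually_ge_atTop 1, hlim.eventually_ge_atTop 2] with n hn hn2 ω x l hl h1 h2
  have hn0 : (0 : ℝ) < n := by exact_mod_cast hn
  have hlogn : 0 ≤ Real.log n := Real.log_nonneg (by exact_mod_cast hn)
  by_contra hcon
  push Not at hcon
  have h3 := no_return (T B ω) (fun n => by unfold T; split_ifs <;> simp) hl h1 h2
  have h4 : 2 * l ≤ 2 ^ l := by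
    clear h1 h2 h3 hcon
    induction l with
    | zero => omega
    | succ l ih =>
      rcases Nat.eq_zero_or_pos l with h | h
      · subst h; norm_num
      · have := ih h
        rw [pow_succ]
        omega
  have h5 : 2 * l * 3 ^ l ≤ 6 ^ l := by
    calc 2 * l * 3 ^ l ≤ 2 ^ l * 3 ^ l := Nat.mul_le_mul_right _ h4
      _ = 6 ^ l := by rw [← mul_pow]; norm_num
  have h6 : (n : ℝ) ^ η < ((6 ^ l : ℕ) : ℝ) + 1 := by
    refine (Nat.lt_floor_add_one _).trans_le ?_
    have : (⌊(n : ℝ) ^ η⌋₊ : ℝ) ≤ ((6 ^ l : ℕ) : ℝ) := by exact_mod_cast h3.trans h5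
    linarith
  have h7 : ((6 ^ l : ℕ) : ℝ) ≤ (n : ℝ) ^ (η / 2) := by
    push_cast
    have hl6 : Real.log 6 ≤ 2 := by
      have h1 : (6 : ℝ) ≤ Real.exp 2 := by
        have h2 := Real.exp_one_gt_d9
        have h3 : Real.exp 2 = Real.exp 1 * Real.exp 1 := by rw [← Real.exp_add]; norm_num
        rw [h3]
        nlinarith
      have h4 := Real.log_le_log (by norm_num) h1
      rwa [Real.log_exp] at h4
    have hl60 : 0 < Real.log 6 := Real.log_pos (by norm_num)
    rw [← Real.exp_log (by norm_num : (0 : ℝ) < 6), ← Real.exp_nat_mul, Real.rpow_def_of_pos hn0]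
    apply Real.exp_le_exp.2
    have hl0 : (0 : ℝ) ≤ l := Nat.cast_nonneg _
    calc (l : ℝ) * Real.log 6 ≤ l * 2 := mul_le_mul_of_nonneg_left hl6 hl0
      _ ≤ Real.log n * (η / 2) := by nlinarith
  have h8 : (n : ℝ) ^ η = (n : ℝ) ^ (η / 2) * (n : ℝ) ^ (η / 2) := by
    rw [← Real.rpow_add hn0]
    congr 1
    ring
  nlinarith

end Pool.Agent.N909.CM
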