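import Mathlib
import Pool.Agent.N909.CM.Rep
import Pool.Agent.N909.TF.Free

set_option autoImplicit false
set_option linter.unusedSectionVars false

/-! # Random Collatz maps: the average height -/

open MeasureTheory Filter Set
open scoped ENNReal Topology

namespace Pool.Agent.N909.CM

open Pool.Agent.R528.RM Pool.Agent.N909.CMT

variable {Ω : Type} {m0 : MeasurableSpace Ω} {μ : Measure Ω} [IsProbabilityMeasure μ]
  {ℱ : Filtration ℕ m0} {B : ℕ → Set Ω}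

/-- half of the integers go up -/
theorem half (hB : ∀ n, MeasurableSet[ℱ n] (B n))
    (hd : ∀ᵐ ω ∂μ, Tendsto (fun n : ℕ => dens μ ℱ B n ω) atTop (𝓝 (1 / 2))) :
    ∀ᵐ ω ∂μ, Tendsto (fun x : ℕ => ((Set.Icc 1 x ∩ {n | ω ∈ B n}).ncard : ℝ) / x) atTop (𝓝 (1 / 2)) := by
  classical
  have h1 := Pool.Agent.N909.TF.bc_law (μ := μ) (ℱ := ℱ) (A := B) hB (fun _ _ _ => 1) (fun n => n)
    (fun _ _ => stronglyMeasurable_const) (fun _ _ _ => ⟨zero_le_one, le_rfl⟩)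
  filter_upwards [h1, hd] with ω g1 g2
  -- the sums
  have e1 : ∀ n : ℕ, Pool.Agent.N909.TF.SI B (fun _ _ => (1 : ℝ)) n ω = ((Set.Icc 1 n ∩ {n | ω ∈ B n}).ncard : ℝ) := by
    intro n
    have e0 : (Set.Icc 1 n ∩ {n | ω ∈ B n}) = (((Finset.range n).filter (fun k => ω ∈ B (k + 1))).image (· + 1) : Finset ℕ) := by
      ext x
      simp only [mem_inter_iff, Set.mem_Icc, mem_ofPred_eq, Finset.coe_image, Finset.coe_filter, Finset.mem_range, mem_image]
      constructor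
      · rintro ⟨⟨h1, h2⟩, h3⟩
        exact ⟨x - 1, ⟨by omega, by rwa [Nat.sub_add_cancel h1]⟩, by omega⟩
      · rintro ⟨y, ⟨h1, h2⟩, rfl⟩
        exact ⟨⟨by omega, by omega⟩, h2⟩
    rw [e0, Set.ncard_coe_finset, Finset.card_image_of_injective _ (add_left_injective 1), Finset.card_filter]
    unfold Pool.Agent.N909.TF.SI
    push_cast
    apply Finset.sum_congr rfl
    intro k _
    rw [one_mul]
    by_cases h : ω ∈ B (k + 1) <;> simp [h]
  have e2 : ∀ n : ℕ, Pool.Agent.N909.TF.SD μ ℱ B (fun _ _ => (1 : ℝ)) n ω = ∑ k ∈ Finset.range n, dens μ ℱ B k ω := by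
    intro n
    unfold Pool.Agent.N909.TF.SD
    simp
  have h2 : Tendsto (fun n : ℕ => (∑ k ∈ Finset.range n, dens μ ℱ B k ω) / n) atTop (𝓝 (1 / 2)) := by
    have := g2.cesaro
    refine this.congr fun n => ?_
    rw [div_eq_inv_mul]
  have h3 : ∀ C : ℝ, Tendsto (fun n : ℕ => C * (Real.log n / n)) atTop (𝓝 0) := by
    intro C
    have hlo : (fun x : ℝ => Real.log x) =o[atTop] (fun x : ℝ => x) := Real.isLittleO_log_id_atTop
    have h4 := (hlo.tendsto_div_nhds_zero.comp tendsto_natCast_atTop_atTop).const_mul C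
    rw [mul_zero] at h4
    exact h4
  rw [Metric.tendsto_atTop']
  intro ε hε
  obtain ⟨C, hC, g3⟩ := g1 (min (ε / 4) 1) (lt_min (by positivity) one_pos)
  have h4 := (Metric.tendsto_nhds.1 h2) (ε / 4) (by positivity)
  have h5 := (Metric.tendsto_nhds.1 (h3 C)) (ε / 4) (by positivity)
  have h6 : ∀ᶠ n : ℕ in atTop, dist (((Set.Icc 1 n ∩ {n | ω ∈ B n}).ncard : ℝ) / n) (1 / 2) < ε := by
    filter_upwards [g3, h4, h5, eventually_ge_atTop 1] with n k1 k2 k3 k4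
    obtain ⟨k1, k1'⟩ := k1
    rw [e1, e2] at k1 k1'
    rw [Real.dist_eq] at k2 k3 ⊢
    rw [sub_zero] at k3
    have hn : (0 : ℝ) < n := by exact_mod_cast k4
    set S : ℝ := ∑ k ∈ Finset.range n, dens μ ℱ B k ω with hS
    set c : ℝ := ((Set.Icc 1 n ∩ {n | ω ∈ B n}).ncard : ℝ) with hc
    have hmin0 : 0 ≤ min (ε / 4) 1 := le_min (by positivity) zero_le_one
    have hmin1 : min (ε / 4) 1 ≤ ε / 4 := min_le_left _ _
    have hmin2 : min (ε / 4) 1 ≤ 1 := min_le_right _ _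
    have k5 : c / n ≤ (1 + min (ε / 4) 1) * (S / n) + C * (Real.log n / n) := by
      rw [div_le_iff₀ hn]
      refine k1.trans (le_of_eq ?_)
      field_simp
    have k6 : (1 - min (ε / 4) 1) * (S / n) - C * (Real.log n / n) ≤ c / n := by
      rw [le_div_iff₀ hn]
      refine le_trans (le_of_eq ?_) k1'
      field_simp
    rw [abs_lt] at k2 k3 ⊢
    constructor
    · nlinarith [k2.1, k2.2, k3.1, k3.2]
    · nlinarith [k2.1, k2.2, k3.1, k3.2]
  obtain ⟨N, hN⟩ := eventually_atTop.1 h6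
  exact ⟨N, fun n hn => hN n hn.le⟩

lemma T_pos (ω : Ω) {m : ℕ} (hm : 2 ≤ m) : 1 ≤ T B ω m := by
  unfold T
  split_ifs <;> omega

lemma ups_le_hgt {ω : Ω} {K k n : ℕ} (hfin : (orb (T B ω) n).Finite) (h1 : Cl (T B ω) K k n) :
    ups B ω k n ≤ hgt B ω n := by
  rw [ups_card ω k n (fun i hi => (h1 i hi).2)]
  apply Set.ncard_le_ncard _ (hfin.subset fun x hx => hx.1)
  rintro x ⟨hx, hb⟩
  refine ⟨?_, hb⟩
  rw [Finset.mem_image] at hx
  obtain ⟨i, _, h⟩ := hx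
  exact ⟨i, h⟩

/-- **the height of almost all integers** -/
theorem height_eps (hB : ∀ n, MeasurableSet[ℱ n] (B n))
    (hd : ∀ᵐ ω ∂μ, Tendsto (fun n : ℕ => dens μ ℱ B n ω) atTop (𝓝 (1 / 2))) {ε : ℝ} (hε : 0 < ε) :
    ∀ᵐ ω ∂μ, ∃ E : Set ℕ, DZ E ∧ ∀ᶠ n : ℕ in atTop, n ∉ E →
      |(hgt B ω n : ℝ) - 1 / Real.log (4 / 3) * Real.log n| ≤ ε * Real.log n := by
  have hl0 : 0 < Real.log (4 / 3) := Real.log_pos (by norm_num)
  set c : ℝ := 1 / Real.log (4 / 3) with hc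
  have hc0 : 0 < c := by positivity
  set κl : ℝ := max (c - ε) (c / 2) with hκl
  have hκl0 : 0 < κl := lt_of_lt_of_le (by positivity) (le_max_right _ _)
  have hκl1 : κl < c := max_lt (by linarith) (by linarith)
  have hκl2 : c - ε ≤ κl := le_max_left _ _
  set κ' : ℝ := (κl + c) / 2 with hκ'
  have hκ'0 : 0 < κ' := by positivity
  have hκ'1 : κ' < c := by rw [hκ']; linarith
  have hκ'2 : κl < κ' := by rw [hκ']; linarith
  set η : ℝ := (1 - κl / κ') / 2 with hη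
  have hη0 : 0 < η := by
    have : κl / κ' < 1 := by rwa [div_lt_one hκ'0]
    rw [hη]; linarith
  have hη1 : η < 1 := by
    have : 0 < κl / κ' := by positivity
    rw [hη]; linarith
  have hη2 : κl < κ' * (1 - η) := by
    have e : κ' * (1 - η) = (κ' + κl) / 2 := by
      rw [hη]
      field_simp
      ring
    rw [e]; linarith
  have hm := mm_lt (θ := 1 / 2) (by norm_num) (by norm_num)
  have hlm : 0 < -Real.log (mm (1 / 2)) := by
    have := Real.log_neg (mm_pos _) hm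
    linarith
  set γ : ℝ := (1 + 1 / 2) / (-Real.log (mm (1 / 2))) + 1 with hγ
  have hγ0 : 0 < γ := by positivity
  have s1 := size (μ := μ) (ℱ := ℱ) hB hd (θ := 1 / 2) (γ := γ) (by norm_num) (by norm_num) (by rw [hγ]; linarith)
  have s2 := up_dens (μ := μ) (ℱ := ℱ) hB hd (fun n => ⌊γ * Real.log n⌋₊) (κ := c + ε / 2) (by linarith)
  have s3 := low_dens (μ := μ) (ℱ := ℱ) hB hd (fun n => ⌊γ * Real.log n⌋₊) hκ'0 hκ'1 hη2
  have s4 := rep_dens (μ := μ) (ℱ := ℱ) hB hd (γ := γ) (c₀ := η / 4) hγ0 (by positivity)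
  filter_upwards [s1, s2, s3, s4, all_finite (μ := μ) (ℱ := ℱ) hB hd] with ω g1 g2 g3 g4 hfin
  obtain ⟨K₁, E₁, hE₁, g2⟩ := g2
  obtain ⟨K₂, E₂, hE₂, g3⟩ := g3
  obtain ⟨K₃, E₃, hE₃, g4⟩ := g4
  obtain ⟨C, hC⟩ := count_bad hfin K₁
  refine ⟨E₁ ∪ E₂ ∪ E₃, (hE₁.union hE₂).union hE₃, ?_⟩
  have hlog : Tendsto (fun n : ℕ => Real.log n) atTop atTop := Real.tendsto_log_atTop.comp tendsto_natCast_atTop_atTop
  have hfl : Tendsto (fun n : ℕ => ⌊(n : ℝ) ^ η⌋₊) atTop atTop :=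
    tendsto_nat_floor_atTop.comp ((tendsto_rpow_atTop hη0).comp tendsto_natCast_atTop_atTop)
  filter_upwards [g1, g2, g3, loop_long hη0 B, eventually_gt_atTop K₁, hlog.eventually_ge_atTop ((1 + C) * (2 / ε)),
    hlog.eventually_ge_atTop 1, hfl.eventually_ge_atTop (K₂ + K₃ + 1), eventually_gt_atTop 1]
    with n h1 h2 h3 h4 hn hn2 hn3 hn4 hn5 hnE
  simp only [mem_union, not_or] at hnE
  obtain ⟨⟨hnE1, hnE2⟩, hnE3⟩ := hnE
  have hlen : ∀ {K k : ℕ}, Cl (T B ω) K k n → k ≤ ⌊γ * Real.log n⌋₊ := by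
    intro K k hcl
    apply Nat.le_floor
    have := hcl.le_ncard (hfin n)
    have h5 : (k : ℝ) ≤ (orb (T B ω) n).ncard := by exact_mod_cast this
    linarith
  have hnr : (1 : ℝ) < n := by exact_mod_cast hn5
  rw [abs_le]
  constructor
  · -- lower bound
    have hHn : ⌊(n : ℝ) ^ η⌋₊ < n := by
      rw [Nat.floor_lt (by positivity)]
      calc (n : ℝ) ^ η < (n : ℝ) ^ (1 : ℝ) := Real.rpow_lt_rpow_of_exponent_lt hnr hη1
        _ = n := Real.rpow_one _
    obtain ⟨k, k1, k2⟩ := first_bad' (hfin n) hHn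
    have hkl := hlen k1
    have k3 : (T B ω)^[k + 1] n ≤ ⌊(n : ℝ) ^ η⌋₊ := by
      rcases k2 with k2 | ⟨j, hj, k2⟩
      · exact k2
      · exfalso
        obtain ⟨l, hl⟩ : ∃ l, k + 1 = j + l := ⟨k + 1 - j, by omega⟩
        have hl1 : 1 ≤ l := by omega
        have k5 := h4 ω ((T B ω)^[j] n) l hl1 (fun i hi => by
          rw [← Function.iterate_add_apply]
          exact (k1 (i + j) (by omega)).1) (by
          rw [← Function.iterate_add_apply, k2, hl, add_comm])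
        rw [hl] at k1 k2 hkl
        exact g4 n hnE3 j l hl1 hkl k5 (k1.mono (by omega) le_rfl) k2
    have k4 : 1 ≤ (T B ω)^[k + 1] n := by
      rw [Function.iterate_succ_apply']
      have := (k1 k (by omega)).1
      exact T_pos ω (by omega)
    have k5 : (((T B ω)^[k + 1] n : ℕ) : ℝ) ≤ (n : ℝ) ^ η :=
      le_trans (by exact_mod_cast k3) (Nat.floor_le (by positivity))
    have k6 := h3 hnE2 (k + 1) hkl (k1.mono (by omega) le_rfl) k4 k5
    have k7 : (ups B ω (k + 1) n : ℝ) ≤ hgt B ω n := by exact_mod_cast ups_le_hgt (hfin n) k1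
    nlinarith
  · -- upper bound
    obtain ⟨k, k1, -, k2, -⟩ := hC n hn
    have hkl := hlen k1
    have k3 := h2 hnE1 k (by omega) k1
    have k4 := ups_succ_le (B := B) ω k n
    have k5 : (hgt B ω n : ℝ) ≤ ups B ω k n + 1 + C := by exact_mod_cast (by omega : hgt B ω n ≤ ups B ω k n + 1 + C)
    have k6 : (1 + C : ℝ) ≤ ε / 2 * Real.log n := by
      have : (1 + C : ℝ) * (2 / ε) * (ε / 2) ≤ Real.log n * (ε / 2) := mul_le_mul_of_nonneg_right hn2 (by positivity)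
      have e : (1 + C : ℝ) * (2 / ε) * (ε / 2) = 1 + C := by field_simp
      linarith
    linarith

/-- **the average height** -/
theorem avg_height (hB : ∀ n, MeasurableSet[ℱ n] (B n))
    (hd : ∀ᵐ ω ∂μ, Tendsto (fun n : ℕ => dens μ ℱ B n ω) atTop (𝓝 (1 / 2))) :
    ∀ᵐ ω ∂μ, (∀ ε : ℝ, 0 < ε → ∃ E : Set ℕ, DZ E ∧ ∀ᶠ n : ℕ in atTop, n ∉ E →
      |(hgt B ω n : ℝ) - 1 / Real.log (4 / 3) * Real.log n| ≤ ε * Real.log n) ∧
      open Classical in Tendsto (fun x : ℕ => 2 / (x : ℝ) * (∑ m ∈ (Finset.Icc 1 x).filter (· ∈ {n | ω ∈ B n}), (hgt B ω m : ℝ)) /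
        Real.log x) atTop (𝓝 (1 / Real.log (4 / 3))) := by
  classical
  have hl0 : 0 < Real.log (4 / 3) := Real.log_pos (by norm_num)
  have h1 : ∀ᵐ ω ∂μ, ∀ m : ℕ, ∃ E : Set ℕ, DZ E ∧ ∀ᶠ n : ℕ in atTop, n ∉ E →
      |(hgt B ω n : ℝ) - 1 / Real.log (4 / 3) * Real.log n| ≤ 1 / ((m : ℝ) + 1) * Real.log n :=
    ae_all_iff.2 fun m => height_eps (μ := μ) (ℱ := ℱ) hB hd (by positivity)
  have hm := mm_lt (θ := 1 / 2) (by norm_num) (by norm_num)
  have s1 := size (μ := μ) (ℱ := ℱ) hB hd (θ := 1 / 2) (γ := (1 + 1 / 2) / (-Real.log (mm (1 / 2))) + 1) (by norm_num)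
    (by norm_num) (by linarith)
  filter_upwards [h1, s1, half (μ := μ) (ℱ := ℱ) hB hd, all_finite (μ := μ) (ℱ := ℱ) hB hd] with ω g1 g2 g3 hfin
  have g4 : ∀ ε : ℝ, 0 < ε → ∃ E : Set ℕ, DZ E ∧ ∀ᶠ n : ℕ in atTop, n ∉ E →
      |(hgt B ω n : ℝ) - 1 / Real.log (4 / 3) * Real.log n| ≤ ε * Real.log n := by
    intro ε hε
    obtain ⟨m, hm⟩ := exists_nat_one_div_lt hε
    obtain ⟨E, hE, h2⟩ := g1 m
    refine ⟨E, hE, ?_⟩
    filter_upwards [h2, eventually_ge_atTop 1] with n hn hn1 hnE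
    refine (hn hnE).trans (mul_le_mul_of_nonneg_right hm.le (Real.log_nonneg (by exact_mod_cast hn1)))
  refine ⟨g4, ?_⟩
  apply average (fun n => (hgt B ω n : ℝ)) {n | ω ∈ B n} (c := 1 / Real.log (4 / 3))
    (γ := (1 + 1 / 2) / (-Real.log (mm (1 / 2))) + 1) (by positivity) (fun n => by positivity)
  · have := (DZ_iff (fun n => ω ∈ B n))
    have e : ∀ x : ℕ, (Set.Icc 1 x ∩ {n | ω ∈ B n}).ncard = ((Finset.Icc 1 x).filter (· ∈ {n | ω ∈ B n})).card := by
      intro x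
      rw [← Set.ncard_coe_finset]
      congr 1
      ext n
      simp
    simp only [e] at g3
    exact g3
  · filter_upwards [g2] with n hn
    refine le_trans ?_ hn
    have : hgt B ω n ≤ (orb (T B ω) n).ncard := Set.ncard_le_ncard (fun x hx => hx.1) (hfin n)
    exact_mod_cast this
  · intro ε hε
    obtain ⟨E, hE, h2⟩ := g4 ε hε
    exact ⟨E, (DZ_iff (· ∈ E)).1 hE, h2⟩

end Pool.Agent.N909.CM
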